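import Mathlib
import Pool.Agent.Helper206.Cover.Algebra
import Pool.Agent.Helper449.RC.Torus2

/-!
# The almost complex structure on `P¹ × P¹ × T²`: definitions and linear algebra

The point of the manifold is `(t, z, w)`; the tangent vectors are `(τ, ξ, η)`. With
`u = (t₀, t₁)`, `X = z × e₂ / 2` (the Hamiltonian vector field of the function `z₂ / 2`),
`ζ = ξ + (u₀ η₁ - u₁ η₀) X`, `η' = η - (ξ₂ / 2) u` the almost complex structure is
`(t × τ, z × ζ - ⟨u, η'⟩ X, ((z × ζ)₂ / 2) u + i η')`.
-/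

open scoped Manifold ContDiff Topology
open Metric Set Bundle
open Pool.Agent.Helper206.Cover

noncomputable section

namespace Pool.Agent.Helper449.RC

/-- the vector space containing the tangent spaces -/
abbrev W8 : Type := R3 × (R3 × E2)

/-- the shear vector -/
def uv (t : R3) : E2 := !₂[t 0, t 1]

/-- the Hamiltonian vector field of `z ↦ z₂ / 2` -/
def Xv (z : R3) : R3 := !₂[z 1 / 2, -(z 0) / 2, 0]

/-- multiplication by `i` on the plane -/
def rot (η : E2) : E2 := !₂[-(η 1), η 0]

/-- the area form of the plane, with first argument `uv t` -/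
def am (t : R3) (η : E2) : ℝ := t 0 * η 1 - t 1 * η 0

/-- the inner product with `uv t` -/
def dm (t : R3) (η : E2) : ℝ := t 0 * η 0 + t 1 * η 1

/-- the component `ζ` -/
def ze (t z : R3) (v : W8) : R3 := v.2.1 + (am t v.2.2) • Xv z

/-- the component `η'` -/
def et (t : R3) (v : W8) : E2 := v.2.2 - (v.2.1 2 / 2) • uv t

/-- the almost complex structure, as an ambient map -/
def JF (t z : R3) (v : W8) : W8 :=
  (cross t v.1,
    (cross z (ze t z v) - (dm t (et t v)) • Xv z,
      ((cross z (ze t z v)) 2 / 2) • uv t + rot (et t v)))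

/-- the change of variables -/
def PF (t z : R3) (v : W8) : W8 := (v.1, (ze t z v, et t v))

theorem ze_add (t z : R3) (v w : W8) : ze t z (v + w) = ze t z v + ze t z w := by
  ext i; fin_cases i <;> simp [ze, am, Xv] <;> ring

theorem ze_smul (t z : R3) (c : ℝ) (v : W8) : ze t z (c • v) = c • ze t z v := by
  ext i; fin_cases i <;> simp [ze, am, Xv] <;> ring

theorem et_add (t : R3) (v w : W8) : et t (v + w) = et t v + et t w := by
  ext i; fin_cases i <;> simp [et, uv] <;> ring

theorem et_smul (t : R3) (c : ℝ) (v : W8) : et t (c • v) = c • et t v := by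
  ext i; fin_cases i <;> simp [et, uv] <;> ring

theorem rot_add (v w : E2) : rot (v + w) = rot v + rot w := by
  ext i; fin_cases i <;> simp [rot] <;> ring

theorem rot_smul (c : ℝ) (v : E2) : rot (c • v) = c • rot v := by
  ext i; fin_cases i <;> simp [rot]

theorem dm_add (t : R3) (v w : E2) : dm t (v + w) = dm t v + dm t w := by
  simp [dm]; ring

theorem dm_smul (t : R3) (c : ℝ) (v : E2) : dm t (c • v) = c * dm t v := by
  simp [dm]; ring

theorem JF_add (t z : R3) (v w : W8) : JF t z (v + w) = JF t z v + JF t z w := by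
  refine Prod.ext ?_ (Prod.ext ?_ ?_)
  · exact crx_add _ _ _
  · simp only [JF, ze_add, et_add, crx_add, dm_add, Prod.snd_add, Prod.fst_add]
    module
  · simp only [JF, ze_add, et_add, crx_add, rot_add, Prod.snd_add, PiLp.add_apply]
    module

theorem JF_smul (t z : R3) (c : ℝ) (v : W8) : JF t z (c • v) = c • JF t z v := by
  refine Prod.ext ?_ (Prod.ext ?_ ?_)
  · exact crx_smul _ _ _
  · show cross z (ze t z (c • v)) - (dm t (et t (c • v))) • Xv z
      = c • (cross z (ze t z v) - (dm t (et t v)) • Xv z)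
    rw [ze_smul, et_smul, crx_smul, dm_smul]
    module
  · show ((cross z (ze t z (c • v))) 2 / 2) • uv t + rot (et t (c • v))
      = c • (((cross z (ze t z v)) 2 / 2) • uv t + rot (et t v))
    rw [ze_smul, et_smul, crx_smul, rot_smul, PiLp.smul_apply, smul_eq_mul]
    module

/-- the almost complex structure as a continuous linear map of `W8` -/
def JL (t z : R3) : W8 →L[ℝ] W8 :=
  LinearMap.toContinuousLinearMap
    { toFun := JF t z
      map_add' := JF_add t z
      map_smul' := JF_smul t z }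

theorem JL_apply (t z : R3) (v : W8) : JL t z v = JF t z v := rfl

theorem dot2 (x y : E2) : (inner ℝ x y : ℝ) = x 0 * y 0 + x 1 * y 1 := by
  rw [PiLp.inner_apply, Fin.sum_univ_two]
  simp [mul_comm]

/-- the area form of the plane -/
def areaB : E2 →L[ℝ] E2 →L[ℝ] ℝ :=
  LinearMap.toContinuousLinearMap
    { toFun := fun a => LinearMap.toContinuousLinearMap
        { toFun := fun b : E2 => a 0 * b 1 - a 1 * b 0
          map_add' := fun b b' => by simp; ring
          map_smul' := fun c b => by simp; ring }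
      map_add' := fun a a' => by ext b; simp; ring
      map_smul' := fun c a => by ext b; simp; ring }

theorem areaB_apply (a b : E2) : areaB a b = a 0 * b 1 - a 1 * b 0 := rfl

/-- first component -/
def q0 : W8 →L[ℝ] R3 := ContinuousLinearMap.fst ℝ R3 (R3 × E2)
/-- second component -/
def q1 : W8 →L[ℝ] R3 :=
  (ContinuousLinearMap.fst ℝ R3 E2).comp (ContinuousLinearMap.snd ℝ R3 (R3 × E2))
/-- third component -/
def q2 : W8 →L[ℝ] E2 :=
  (ContinuousLinearMap.snd ℝ R3 E2).comp (ContinuousLinearMap.snd ℝ R3 (R3 × E2))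

/-- the symplectic form as an ambient form -/
def formW8 (t z : R3) : W8 →L[ℝ] W8 →L[ℝ] ℝ :=
  dotL.bilinearComp ((crossL t).comp q0) q0 + (dotL.bilinearComp ((crossL z).comp q1) q1
    + areaB.bilinearComp q2 q2)

theorem formW8_apply (t z : R3) (v w : W8) :
    formW8 t z v w = inner ℝ (cross t v.1) w.1 + (inner ℝ (cross z v.2.1) w.2.1
      + (v.2.2 0 * w.2.2 1 - v.2.2 1 * w.2.2 0)) := rfl

theorem formW8_self (t z : R3) (v : W8) : formW8 t z v v = 0 := by
  rw [formW8_apply, formW_pos_dot, formW_pos_dot, formW_pos_c0, formW_pos_c1, formW_pos_c2,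
    formW_pos_c0, formW_pos_c1, formW_pos_c2]
  ring

theorem Xv_orth (z : R3) : inner ℝ z (Xv z) = (0 : ℝ) := by
  rw [formW_pos_dot]
  simp [Xv]
  ring

theorem JF_orth (t z : R3) (v : W8) :
    inner ℝ t (JF t z v).1 = (0 : ℝ) ∧ inner ℝ z (JF t z v).2.1 = (0 : ℝ) := by
  refine ⟨inner_z_crx _ _, ?_⟩
  show inner ℝ z (cross z (ze t z v) - (dm t (et t v)) • Xv z) = (0 : ℝ)
  rw [inner_sub_right, inner_z_crx, inner_smul_right, Xv_orth]
  ring

theorem ze_JF (t z : R3) (v : W8) : ze t z (JF t z v) = cross z (ze t z v) := by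
  have h : am t (JF t z v).2.2 = dm t (et t v) := by
    show am t (((cross z (ze t z v)) 2 / 2) • uv t + rot (et t v)) = dm t (et t v)
    simp [am, dm, uv, rot]
    ring
  show (cross z (ze t z v) - (dm t (et t v)) • Xv z) + (am t (JF t z v).2.2) • Xv z = _
  rw [h]
  module

theorem et_JF (t z : R3) (v : W8) : et t (JF t z v) = rot (et t v) := by
  have h : (JF t z v).2.1 2 = (cross z (ze t z v)) 2 := by
    show (cross z (ze t z v) - (dm t (et t v)) • Xv z) 2 = _
    simp [Xv]
  show (((cross z (ze t z v)) 2 / 2) • uv t + rot (et t v)) - ((JF t z v).2.1 2 / 2) • uv t = _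
  rw [h]
  module

theorem PF_JF (t z : R3) (v : W8) :
    PF t z (JF t z v) = (cross t v.1, (cross z (ze t z v), rot (et t v))) := by
  unfold PF
  rw [ze_JF, et_JF]
  rfl

theorem PF_injective (t z : R3) : Function.Injective (PF t z) := by
  intro v w h
  have h1' : (PF t z v).1 = (PF t z w).1 := by rw [h]
  have h1 : v.1 = w.1 := h1'
  have h2' : (PF t z v).2.1 = (PF t z w).2.1 := by rw [h]
  have h2 : ze t z v = ze t z w := h2'
  have h3' : (PF t z v).2.2 = (PF t z w).2.2 := by rw [h]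
  have h3 : et t v = et t w := h3'
  have h5 : v.2.1 2 = w.2.1 2 := by
    have := congrArg (fun p : R3 => p 2) h2
    simpa [ze, Xv] using this
  have h6 : v.2.2 = w.2.2 := by
    unfold et at h3
    rw [h5] at h3
    exact sub_left_injective h3
  have h7 : v.2.1 = w.2.1 := by
    unfold ze at h2
    rw [h6] at h2
    exact add_left_injective _ h2
  exact Prod.ext h1 (Prod.ext h7 h6)

theorem PF_neg (t z : R3) (v : W8) : PF t z (-v) = -PF t z v := by
  have h1 : ze t z (-v) = -ze t z v := by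
    have := ze_smul t z (-1) v
    simpa using this
  have h2 : et t (-v) = -et t v := by
    have := et_smul t (-1) v
    simpa using this
  exact Prod.ext rfl (Prod.ext h1 h2)

theorem rot_rot (η : E2) : rot (rot η) = -η := by
  ext i; fin_cases i <;> simp [rot]

theorem ze_orth (t z : R3) (v : W8) (hv : inner ℝ z v.2.1 = (0 : ℝ)) :
    inner ℝ z (ze t z v) = (0 : ℝ) := by
  unfold ze
  rw [inner_add_right, inner_smul_right, Xv_orth, hv]
  ring

theorem JF_JF (t z : R3) (ht : inner ℝ t t = (1 : ℝ)) (hz : inner ℝ z z = (1 : ℝ)) (v : W8)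
    (h1 : inner ℝ t v.1 = (0 : ℝ)) (h2 : inner ℝ z v.2.1 = (0 : ℝ)) :
    JF t z (JF t z v) = -v := by
  apply PF_injective t z
  rw [PF_JF, ze_JF, et_JF, PF_neg]
  have e1 : cross t (JF t z v).1 = -v.1 := by
    show cross t (cross t v.1) = -v.1
    rw [crx_crx t ht, h1, zero_smul, zero_sub]
  have e2 : cross z (cross z (ze t z v)) = -ze t z v := by
    rw [crx_crx z hz, ze_orth t z v h2, zero_smul, zero_sub]
  rw [e1, e2, rot_rot]
  rfl

/-- the form in the new variables -/
def form0 (t z : R3) (p q : W8) : ℝ :=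
  inner ℝ (cross t p.1) q.1 + (inner ℝ (cross z p.2.1) q.2.1
      + (p.2.2 0 * q.2.2 1 - p.2.2 1 * q.2.2 0))

theorem formW8_PF (t z : R3) (hz : inner ℝ z z = (1 : ℝ)) (v w : W8)
    (hv : inner ℝ z v.2.1 = (0 : ℝ)) (hw : inner ℝ z w.2.1 = (0 : ℝ)) :
    form0 t z (PF t z v) (PF t z w) = formW8 t z v w := by
  rw [formW8_apply]
  unfold form0
  have key : inner ℝ (cross z (ze t z v)) (ze t z w) + ((et t v) 0 * (et t w) 1
      - (et t v) 1 * (et t w) 0) = (inner ℝ (cross z v.2.1) w.2.1
      + (v.2.2 0 * w.2.2 1 - v.2.2 1 * w.2.2 0) : ℝ) := by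
    rw [formW_pos_dot] at hz hv hw
    rw [formW_pos_dot, formW_pos_dot, formW_pos_c0, formW_pos_c1, formW_pos_c2,
      formW_pos_c0, formW_pos_c1, formW_pos_c2]
    simp only [ze, et, am, Xv, uv, PiLp.add_apply, PiLp.sub_apply, PiLp.smul_apply, smul_eq_mul]
    simp
    linear_combination ((t 0 * w.2.2 1 - t 1 * w.2.2 0) * (v.2.1 2 / 2)
      - (t 0 * v.2.2 1 - t 1 * v.2.2 0) * (w.2.1 2 / 2)) * hz
      - ((t 0 * w.2.2 1 - t 1 * w.2.2 0) * (z 2 / 2)) * hv
      + ((t 0 * v.2.2 1 - t 1 * v.2.2 0) * (z 2 / 2)) * hw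
  exact congrArg (fun x => inner ℝ (cross t v.1) w.1 + x) key

theorem formW8_JF (t z : R3) (ht : inner ℝ t t = (1 : ℝ)) (hz : inner ℝ z z = (1 : ℝ)) (v w : W8)
    (hv1 : inner ℝ t v.1 = (0 : ℝ)) (hv : inner ℝ z v.2.1 = (0 : ℝ))
    (hw : inner ℝ z w.2.1 = (0 : ℝ)) :
    formW8 t z (JF t z v) (JF t z w) = formW8 t z v w := by
  rw [← formW8_PF t z hz _ _ (JF_orth t z v).2 (JF_orth t z w).2,
    ← formW8_PF t z hz _ _ hv hw, PF_JF, PF_JF]
  have e1 : cross t (cross t v.1) = -v.1 := by
    rw [crx_crx t ht, hv1, zero_smul, zero_sub]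
  have e2 : cross z (cross z (ze t z v)) = -ze t z v := by
    rw [crx_crx z hz, ze_orth t z v hv, zero_smul, zero_sub]
  unfold form0
  show inner ℝ (cross t (cross t v.1)) (cross t w.1) + (inner ℝ (cross z (cross z (ze t z v)))
      (cross z (ze t z w)) + ((rot (et t v)) 0 * (rot (et t w)) 1
        - (rot (et t v)) 1 * (rot (et t w)) 0))
    = inner ℝ (cross t v.1) w.1 + (inner ℝ (cross z (ze t z v)) (ze t z w)
      + ((et t v) 0 * (et t w) 1 - (et t v) 1 * (et t w) 0))
  rw [e1, e2]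
  simp only [formW_pos_dot, formW_pos_c0, formW_pos_c1, formW_pos_c2, PiLp.neg_apply, rot]
  simp
  ring

theorem formW8_self_JF (t z : R3) (hz : inner ℝ z z = (1 : ℝ)) (v : W8)
    (hv : inner ℝ z v.2.1 = (0 : ℝ)) :
    formW8 t z v (JF t z v) = inner ℝ (cross t v.1) (cross t v.1)
      + (inner ℝ (cross z (ze t z v)) (cross z (ze t z v))
        + ((et t v) 0 * (et t v) 0 + (et t v) 1 * (et t v) 1)) := by
  rw [← formW8_PF t z hz _ _ hv (JF_orth t z v).2, PF_JF]
  unfold form0
  show inner ℝ (cross t v.1) (cross t v.1) + (inner ℝ (cross z (ze t z v))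
      (cross z (ze t z v)) + ((et t v) 0 * (rot (et t v)) 1
        - (et t v) 1 * (rot (et t v)) 0)) = _
  simp [rot]

theorem eq_zero_of_cross_self (z ξ : R3) (hz : inner ℝ z z = (1 : ℝ))
    (h0 : inner ℝ z ξ = (0 : ℝ)) (h : inner ℝ (cross z ξ) (cross z ξ) = (0 : ℝ)) : ξ = 0 := by
  have h1 : cross z ξ = 0 := inner_self_eq_zero.1 h
  have h2 := crx_crx z hz ξ
  rw [h1, h0, zero_smul, zero_sub] at h2
  have h3 : cross z (0 : R3) = 0 := by
    have := crx_smul z 0 (0 : R3)
    simpa using this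
  rw [h3] at h2
  exact neg_eq_zero.1 h2.symm

theorem formW8_pos (t z : R3) (ht : inner ℝ t t = (1 : ℝ)) (hz : inner ℝ z z = (1 : ℝ)) (v : W8)
    (hv1 : inner ℝ t v.1 = (0 : ℝ)) (hv : inner ℝ z v.2.1 = (0 : ℝ)) (hne : v ≠ 0) :
    0 < formW8 t z v (JF t z v) := by
  rw [formW8_self_JF t z hz v hv]
  have a1 : (0 : ℝ) ≤ inner ℝ (cross t v.1) (cross t v.1) := real_inner_self_nonneg
  have a2 : (0 : ℝ) ≤ inner ℝ (cross z (ze t z v)) (cross z (ze t z v)) := real_inner_self_nonneg
  have a3 : 0 ≤ (et t v) 0 * (et t v) 0 := mul_self_nonneg _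
  have a4 : 0 ≤ (et t v) 1 * (et t v) 1 := mul_self_nonneg _
  by_contra hcon
  have b1 : inner ℝ (cross t v.1) (cross t v.1) = (0 : ℝ) := by linarith
  have b2 : inner ℝ (cross z (ze t z v)) (cross z (ze t z v)) = (0 : ℝ) := by linarith
  have b3 : (et t v) 0 * (et t v) 0 = 0 := by linarith
  have b4 : (et t v) 1 * (et t v) 1 = 0 := by linarith
  have c1 : v.1 = 0 := eq_zero_of_cross_self t v.1 ht hv1 b1
  have c2 : ze t z v = 0 := eq_zero_of_cross_self z _ hz (ze_orth t z v hv) b2
  have c3 : et t v = 0 := by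
    ext i; fin_cases i
    · simpa using b3
    · simpa using b4
  apply hne
  apply PF_injective t z
  have d1 : ze t z (0 : W8) = 0 := by
    have := ze_smul t z 0 (0 : W8)
    simpa using this
  have d2 : et t (0 : W8) = 0 := by
    have := et_smul t 0 (0 : W8)
    simpa using this
  exact Prod.ext c1 (Prod.ext (c2.trans d1.symm) (c3.trans d2.symm))

end Pool.Agent.Helper449.RC
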