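import Mathlib
import Pool.Agent.Helper206.Rat.Calc
import Pool.Agent.Helper449.RC.Alg

/-!
# Calculus lemmas
-/

open scoped Manifold ContDiff Topology
open Metric Set Bundle
open Pool.Agent.Helper206.Cover
open Pool.Agent.Helper206.Rat (Gz Gz_apply contDiff_Gz Gz_self closed_two hasFDerivAt_apply2)

noncomputable section

namespace Pool.Agent.Helper449.RC

/-- the model space -/
abbrev E6 : Type := E2 × (E2 × E2)

/-- the differential of the coordinates -/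
def dZ (Z Z' : E2 → R3) (y : E6) : E6 →L[ℝ] W8 :=
  (fderiv ℝ Z y.1).prodMap ((fderiv ℝ Z' y.2.1).prodMap (ContinuousLinearMap.id ℝ E2))

theorem dZ_apply (Z Z' : E2 → R3) (y v : E6) :
    dZ Z Z' y v = (fderiv ℝ Z y.1 v.1, (fderiv ℝ Z' y.2.1 v.2.1, v.2.2)) := rfl

/-- coordinate expression of the form -/
def coordForm6 (Z Z' : E2 → R3) (y : E6) : E6 →L[ℝ] E6 →L[ℝ] ℝ :=
  (formW8 (Z y.1) (Z' y.2.1)).bilinearComp (dZ Z Z' y) (dZ Z Z' y)

/-- coordinate expression of the almost complex structure -/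
def coordEndo6 (Z Z' : E2 → R3) (P P' : E2 → R3 →L[ℝ] E2) (y : E6) : E6 →L[ℝ] E6 :=
  ((P y.1).prodMap ((P' y.2.1).prodMap (ContinuousLinearMap.id ℝ E2))).comp
    ((JL (Z y.1) (Z' y.2.1)).comp (dZ Z Z' y))

theorem coordForm6_eq (Z Z' : E2 → R3) (y v w : E6) :
    coordForm6 Z Z' y v w = Gz Z y.1 v.1 w.1 + (Gz Z' y.2.1 v.2.1 w.2.1
      + (v.2.2 0 * w.2.2 1 - v.2.2 1 * w.2.2 0)) := rfl

theorem contDiff_y2 : ContDiff ℝ ∞ (fun y : E6 => y.2.1) := contDiff_fst.comp contDiff_snd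

theorem contDiff_coordForm6 (Z Z' : E2 → R3) (hZ : ContDiff ℝ ∞ Z) (hZ' : ContDiff ℝ ∞ Z') :
    ContDiff ℝ ∞ (coordForm6 Z Z') := by
  rw [contDiff_clm_apply_iff]
  intro v
  rw [contDiff_clm_apply_iff]
  intro w
  have h1 : ContDiff ℝ ∞ (fun y : E6 => Gz Z y.1 v.1 w.1) :=
    (((contDiff_Gz Z hZ).comp contDiff_fst).clm_apply contDiff_const).clm_apply contDiff_const
  have h2 : ContDiff ℝ ∞ (fun y : E6 => Gz Z' y.2.1 v.2.1 w.2.1) :=
    (((contDiff_Gz Z' hZ').comp contDiff_y2).clm_apply contDiff_const).clm_apply contDiff_const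
  have h3 : ContDiff ℝ ∞ (fun _ : E6 => (v.2.2 0 * w.2.2 1 - v.2.2 1 * w.2.2 0 : ℝ)) :=
    contDiff_const
  exact h1.add (h2.add h3)

theorem fderiv_coordForm6 (Z Z' : E2 → R3) (hZ : ContDiff ℝ ∞ Z) (hZ' : ContDiff ℝ ∞ Z')
    (y a b c : E6) : fderiv ℝ (coordForm6 Z Z') y a b c =
      fderiv ℝ (Gz Z) y.1 a.1 b.1 c.1 + fderiv ℝ (Gz Z') y.2.1 a.2.1 b.2.1 c.2.1 := by
  have hc : DifferentiableAt ℝ (coordForm6 Z Z') y :=
    (contDiff_coordForm6 Z Z' hZ hZ').differentiable (by simp) y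
  have hg : DifferentiableAt ℝ (Gz Z) y.1 := (contDiff_Gz Z hZ).differentiable (by simp) y.1
  have hg' : DifferentiableAt ℝ (Gz Z') y.2.1 :=
    (contDiff_Gz Z' hZ').differentiable (by simp) y.2.1
  have h1 : HasFDerivAt (fun z => coordForm6 Z Z' z b c)
      ((ContinuousLinearMap.apply ℝ ℝ c).comp
        ((ContinuousLinearMap.apply ℝ (E6 →L[ℝ] ℝ) b).comp (fderiv ℝ (coordForm6 Z Z') y))) y :=
    hasFDerivAt_apply2 (coordForm6 Z Z') (fderiv ℝ (coordForm6 Z Z') y) y hc.hasFDerivAt b c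
  have h2 : HasFDerivAt (fun z : E6 => Gz Z z.1 b.1 c.1)
      ((ContinuousLinearMap.apply ℝ ℝ c.1).comp
        ((ContinuousLinearMap.apply ℝ (E2 →L[ℝ] ℝ) b.1).comp
          ((fderiv ℝ (Gz Z) y.1).comp (ContinuousLinearMap.fst ℝ E2 (E2 × E2))))) y := by
    have e := hasFDerivAt_apply2 (Gz Z) (fderiv ℝ (Gz Z) y.1) y.1 hg.hasFDerivAt b.1 c.1
    exact HasFDerivAt.comp (g := fun z => Gz Z z b.1 c.1) y e
      (ContinuousLinearMap.fst ℝ E2 (E2 × E2)).hasFDerivAt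
  have h3 : HasFDerivAt (fun z : E6 => Gz Z' z.2.1 b.2.1 c.2.1)
      ((ContinuousLinearMap.apply ℝ ℝ c.2.1).comp
        ((ContinuousLinearMap.apply ℝ (E2 →L[ℝ] ℝ) b.2.1).comp
          ((fderiv ℝ (Gz Z') y.2.1).comp ((ContinuousLinearMap.fst ℝ E2 E2).comp
            (ContinuousLinearMap.snd ℝ E2 (E2 × E2)))))) y := by
    have e := hasFDerivAt_apply2 (Gz Z') (fderiv ℝ (Gz Z') y.2.1) y.2.1 hg'.hasFDerivAt b.2.1 c.2.1
    exact HasFDerivAt.comp (g := fun z => Gz Z' z b.2.1 c.2.1) y e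
      ((ContinuousLinearMap.fst ℝ E2 E2).comp
            (ContinuousLinearMap.snd ℝ E2 (E2 × E2))).hasFDerivAt
  have h4 : HasFDerivAt (fun z : E6 => Gz Z z.1 b.1 c.1 + (Gz Z' z.2.1 b.2.1 c.2.1
      + (b.2.2 0 * c.2.2 1 - b.2.2 1 * c.2.2 0))) _ y :=
    h2.add (h3.add_const (b.2.2 0 * c.2.2 1 - b.2.2 1 * c.2.2 0))
  have h5 : (fun z => coordForm6 Z Z' z b c) = fun z : E6 => Gz Z z.1 b.1 c.1
      + (Gz Z' z.2.1 b.2.1 c.2.1 + (b.2.2 0 * c.2.2 1 - b.2.2 1 * c.2.2 0)) :=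
    funext fun z => coordForm6_eq Z Z' z b c
  rw [h5] at h1
  have h6 := h1.unique h4
  exact congrArg (fun L : E6 →L[ℝ] ℝ => L a) h6

theorem closed_coordForm6 (Z Z' : E2 → R3) (hZ : ContDiff ℝ ∞ Z) (hZ' : ContDiff ℝ ∞ Z')
    (y a b c : E6) :
    fderiv ℝ (coordForm6 Z Z') y a b c + fderiv ℝ (coordForm6 Z Z') y b c a
      + fderiv ℝ (coordForm6 Z Z') y c a b = 0 := by
  have hg : DifferentiableAt ℝ (Gz Z) y.1 := (contDiff_Gz Z hZ).differentiable (by simp) y.1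
  have hg' : DifferentiableAt ℝ (Gz Z') y.2.1 :=
    (contDiff_Gz Z' hZ').differentiable (by simp) y.2.1
  rw [fderiv_coordForm6 Z Z' hZ hZ', fderiv_coordForm6 Z Z' hZ hZ', fderiv_coordForm6 Z Z' hZ hZ']
  have h1 := closed_two (Gz Z) y.1 hg (Gz_self Z) a.1 b.1 c.1
  have h2 := closed_two (Gz Z') y.2.1 hg' (Gz_self Z') a.2.1 b.2.1 c.2.1
  linarith

section smooth

variable {F : Type*} [NormedAddCommGroup F] [NormedSpace ℝ F]

theorem cd_coord3 {f : F → R3} (hf : ContDiff ℝ ∞ f) (i : Fin 3) :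
    ContDiff ℝ ∞ (fun x => f x i) := contDiff_euclidean.1 hf i

theorem cd_coord2 {f : F → E2} (hf : ContDiff ℝ ∞ f) (i : Fin 2) :
    ContDiff ℝ ∞ (fun x => f x i) := contDiff_euclidean.1 hf i

theorem cd_uv {f : F → R3} (hf : ContDiff ℝ ∞ f) : ContDiff ℝ ∞ (fun x => uv (f x)) := by
  rw [contDiff_euclidean]
  intro i
  fin_cases i
  · exact cd_coord3 hf 0
  · exact cd_coord3 hf 1

theorem cd_Xv {f : F → R3} (hf : ContDiff ℝ ∞ f) : ContDiff ℝ ∞ (fun x => Xv (f x)) := by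
  rw [contDiff_euclidean]
  intro i
  fin_cases i
  · exact (cd_coord3 hf 1).div_const 2
  · exact (cd_coord3 hf 0).neg.div_const 2
  · exact contDiff_const

theorem cd_rot {f : F → E2} (hf : ContDiff ℝ ∞ f) : ContDiff ℝ ∞ (fun x => rot (f x)) := by
  rw [contDiff_euclidean]
  intro i
  fin_cases i
  · exact (cd_coord2 hf 1).neg
  · exact cd_coord2 hf 0

theorem cd_am {f : F → R3} {g : F → E2} (hf : ContDiff ℝ ∞ f) (hg : ContDiff ℝ ∞ g) :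
    ContDiff ℝ ∞ (fun x => am (f x) (g x)) :=
  ((cd_coord3 hf 0).mul (cd_coord2 hg 1)).sub ((cd_coord3 hf 1).mul (cd_coord2 hg 0))

theorem cd_dm {f : F → R3} {g : F → E2} (hf : ContDiff ℝ ∞ f) (hg : ContDiff ℝ ∞ g) :
    ContDiff ℝ ∞ (fun x => dm (f x) (g x)) :=
  ((cd_coord3 hf 0).mul (cd_coord2 hg 0)).add ((cd_coord3 hf 1).mul (cd_coord2 hg 1))

theorem cd_ze {f g : F → R3} {V : F → W8} (hf : ContDiff ℝ ∞ f) (hg : ContDiff ℝ ∞ g)
    (hV : ContDiff ℝ ∞ V) : ContDiff ℝ ∞ (fun x => ze (f x) (g x) (V x)) := by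
  have h2 : ContDiff ℝ ∞ (fun x => (V x).2.1) := contDiff_fst.comp (contDiff_snd.comp hV)
  have h3 : ContDiff ℝ ∞ (fun x => (V x).2.2) := contDiff_snd.comp (contDiff_snd.comp hV)
  exact h2.add ((cd_am hf h3).smul (cd_Xv hg))

theorem cd_et {f : F → R3} {V : F → W8} (hf : ContDiff ℝ ∞ f)
    (hV : ContDiff ℝ ∞ V) : ContDiff ℝ ∞ (fun x => et (f x) (V x)) := by
  have h2 : ContDiff ℝ ∞ (fun x => (V x).2.1) := contDiff_fst.comp (contDiff_snd.comp hV)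
  have h3 : ContDiff ℝ ∞ (fun x => (V x).2.2) := contDiff_snd.comp (contDiff_snd.comp hV)
  exact h3.sub (((cd_coord3 h2 2).div_const 2).smul (cd_uv hf))

theorem cd_JF {f g : F → R3} {V : F → W8} (hf : ContDiff ℝ ∞ f) (hg : ContDiff ℝ ∞ g)
    (hV : ContDiff ℝ ∞ V) : ContDiff ℝ ∞ (fun x => JF (f x) (g x) (V x)) := by
  have h1 : ContDiff ℝ ∞ (fun x => (V x).1) := contDiff_fst.comp hV
  have hc := contDiff_cross hg (cd_ze hf hg hV)
  refine ContDiff.prodMk (contDiff_cross hf h1) (ContDiff.prodMk ?_ ?_)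
  · exact hc.sub ((cd_dm hf (cd_et hf hV)).smul (cd_Xv hg))
  · exact (((cd_coord3 hc 2).div_const 2).smul (cd_uv hf)).add (cd_rot (cd_et hf hV))

end smooth

theorem contDiff_coordEndo6 (Z Z' : E2 → R3) (hZ : ContDiff ℝ ∞ Z) (hZ' : ContDiff ℝ ∞ Z')
    (P P' : E2 → R3 →L[ℝ] E2) (hP : ContDiff ℝ ∞ P) (hP' : ContDiff ℝ ∞ P') :
    ContDiff ℝ ∞ (coordEndo6 Z Z' P P') := by
  rw [contDiff_clm_apply_iff]
  intro v
  have hz : ContDiff ℝ ∞ (fun y : E6 => Z y.1) := hZ.comp contDiff_fst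
  have hz' : ContDiff ℝ ∞ (fun y : E6 => Z' y.2.1) := hZ'.comp contDiff_y2
  have hd : ContDiff ℝ ∞ (fderiv ℝ Z) := hZ.fderiv_right (m := ∞) (by norm_cast)
  have hd' : ContDiff ℝ ∞ (fderiv ℝ Z') := hZ'.fderiv_right (m := ∞) (by norm_cast)
  have hd1 : ContDiff ℝ ∞ (fun y : E6 => fderiv ℝ Z y.1 v.1) :=
    (hd.comp contDiff_fst).clm_apply contDiff_const
  have hd2 : ContDiff ℝ ∞ (fun y : E6 => fderiv ℝ Z' y.2.1 v.2.1) :=
    (hd'.comp contDiff_y2).clm_apply contDiff_const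
  have hV : ContDiff ℝ ∞ (fun y : E6 => dZ Z Z' y v) :=
    hd1.prodMk (hd2.prodMk contDiff_const)
  have hJ : ContDiff ℝ ∞ (fun y : E6 => JF (Z y.1) (Z' y.2.1) (dZ Z Z' y v)) := cd_JF hz hz' hV
  have h1 : ContDiff ℝ ∞ (fun y : E6 => P y.1 (JF (Z y.1) (Z' y.2.1) (dZ Z Z' y v)).1) :=
    (hP.comp contDiff_fst).clm_apply (contDiff_fst.comp hJ)
  have h2 : ContDiff ℝ ∞ (fun y : E6 => P' y.2.1 (JF (Z y.1) (Z' y.2.1) (dZ Z Z' y v)).2.1) :=
    (hP'.comp contDiff_y2).clm_apply (contDiff_fst.comp (contDiff_snd.comp hJ))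
  have h3 : ContDiff ℝ ∞ (fun y : E6 => (JF (Z y.1) (Z' y.2.1) (dZ Z Z' y v)).2.2) :=
    contDiff_snd.comp (contDiff_snd.comp hJ)
  exact h1.prodMk (h2.prodMk h3)

end Pool.Agent.Helper449.RC
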