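import Mathlib
import Pool.Agent.Helper206.Rat.Geometry
import Pool.Agent.Helper449.RC.Calc

/-!
# Geometry of the example
-/

open scoped Manifold ContDiff Topology
open Metric Set Bundle
open Pool.Agent.Helper206.Cover
open Pool.Agent.Helper206.Rat (SymplecticForm AlmostComplex IsCompatible contDiff_Pc)

noncomputable section

namespace Pool.Agent.Helper449.RC

attribute [local instance] factR3

/-- the manifold -/
abbrev X6 : Type := P1 × (P1 × T2)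

/-- its model with corners -/
abbrev I6 : ModelWithCorners ℝ E6 (ModelProd E2 (ModelProd E2 E2)) :=
  (𝓡 2).prod ((𝓡 2).prod 𝓘(ℝ, E2))

/-- the inclusion of the tangent space in `W8` -/
def inc6 (x : X6) : E6 →L[ℝ] W8 :=
  ((dInc x.1 : E2 →L[ℝ] R3)).prodMap
    (((dInc x.2.1 : E2 →L[ℝ] R3)).prodMap (ContinuousLinearMap.id ℝ E2))

/-- the projection of `W8` to the tangent space -/
def proj6 (x : X6) : W8 →L[ℝ] E6 :=
  ((tanProj x.1 : R3 →L[ℝ] E2)).prodMap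
    (((tanProj x.2.1 : R3 →L[ℝ] E2)).prodMap (ContinuousLinearMap.id ℝ E2))

/-- the almost complex structure -/
def J6 : EndoField I6 X6 := fun x =>
  ((proj6 x).comp ((JL x.1 x.2.1).comp (inc6 x)) : E6 →L[ℝ] E6)

/-- the symplectic form -/
def form6 : BilinField I6 X6 := fun x =>
  ((formW8 x.1 x.2.1).bilinearComp (inc6 x) (inc6 x) : E6 →L[ℝ] E6 →L[ℝ] ℝ)

theorem extChartAt_X6_symm (x₀ : X6) (y : E6) :
    (extChartAt I6 x₀).symm y
      = (((extChartAt (𝓡 2) x₀.1).symm y.1, ((extChartAt (𝓡 2) x₀.2.1).symm y.2.1,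
        toT2 y.2.2)) : X6) := by
  rw [extChartAt_prod, extChartAt_prod]
  rw [PartialEquiv.prod_symm, PartialEquiv.prod_symm]
  simp only [PartialEquiv.prod_coe, extChartAt_T2_symm]

theorem mfderiv_extChartAt_X6_symm (x₀ : X6) (y v : E6) :
    (mfderiv 𝓘(ℝ, E6) I6 (extChartAt I6 x₀).symm y v : E6)
      = ((mfderiv 𝓘(ℝ, E2) (𝓡 2) (extChartAt (𝓡 2) x₀.1).symm y.1 v.1,
        (mfderiv 𝓘(ℝ, E2) (𝓡 2) (extChartAt (𝓡 2) x₀.2.1).symm y.2.1 v.2.1, v.2.2)) : E6) := by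
  have hfun : ((extChartAt I6 x₀).symm : E6 → X6) = fun y =>
      (((extChartAt (𝓡 2) x₀.1).symm y.1, ((extChartAt (𝓡 2) x₀.2.1).symm y.2.1,
        toT2 y.2.2)) : X6) :=
    funext (extChartAt_X6_symm x₀)
  have hA : HasMFDerivAt 𝓘(ℝ, E2) (𝓡 2) ((extChartAt (𝓡 2) x₀.1).symm : E2 → P1) y.1
      (mfderiv 𝓘(ℝ, E2) (𝓡 2) (extChartAt (𝓡 2) x₀.1).symm y.1) :=
    ((xchart_symm_contMDiff x₀.1).mdifferentiable (by simp) y.1).hasMFDerivAt
  have hB : HasMFDerivAt 𝓘(ℝ, E2) (𝓡 2) ((extChartAt (𝓡 2) x₀.2.1).symm : E2 → P1) y.2.1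
      (mfderiv 𝓘(ℝ, E2) (𝓡 2) (extChartAt (𝓡 2) x₀.2.1).symm y.2.1) :=
    ((xchart_symm_contMDiff x₀.2.1).mdifferentiable (by simp) y.2.1).hasMFDerivAt
  have hT : HasMFDerivAt 𝓘(ℝ, E2) 𝓘(ℝ, E2) toT2 y.2.2
      (ContinuousLinearMap.id ℝ E2 : E2 →L[ℝ] E2) := by
    have h1 := ((contMDiff_toT2 y.2.2).mdifferentiableAt (by simp)).hasMFDerivAt
    rw [mfderiv_toT2] at h1
    exact h1
  have f1 : HasMFDerivAt 𝓘(ℝ, E6) 𝓘(ℝ, E2) (fun y : E6 => y.1) y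
      (ContinuousLinearMap.fst ℝ E2 (E2 × E2)) := hasFDerivAt_fst.hasMFDerivAt
  have f2 : HasMFDerivAt 𝓘(ℝ, E6) 𝓘(ℝ, E2) (fun y : E6 => y.2.1) y
      ((ContinuousLinearMap.fst ℝ E2 E2).comp (ContinuousLinearMap.snd ℝ E2 (E2 × E2))) :=
    (hasFDerivAt_fst.comp y hasFDerivAt_snd).hasMFDerivAt
  have f3 : HasMFDerivAt 𝓘(ℝ, E6) 𝓘(ℝ, E2) (fun y : E6 => y.2.2) y
      ((ContinuousLinearMap.snd ℝ E2 E2).comp (ContinuousLinearMap.snd ℝ E2 (E2 × E2))) :=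
    (hasFDerivAt_snd.comp y hasFDerivAt_snd).hasMFDerivAt
  have g1 := hA.comp y f1
  have g2 := hB.comp y f2
  have g3 := hT.comp y f3
  have g := g1.prodMk (g2.prodMk g3)
  rw [hfun]
  have := g.mfderiv
  erw [this]
  rfl

theorem hasMFDerivAt_prodMk_space6 {E₁ E₂ : Type*} [NormedAddCommGroup E₁] [NormedSpace ℝ E₁]
    [NormedAddCommGroup E₂] [NormedSpace ℝ E₂] (f : X6 → E₁) (g : X6 → E₂) (x : X6)
    (df : E6 →L[ℝ] E₁) (dg : E6 →L[ℝ] E₂)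
    (hf : HasMFDerivAt I6 𝓘(ℝ, E₁) f x df) (hg : HasMFDerivAt I6 𝓘(ℝ, E₂) g x dg) :
    HasMFDerivAt I6 𝓘(ℝ, E₁ × E₂) (fun y => (f y, g y)) x (df.prod dg) :=
  ⟨hf.1.prodMk hg.1, hf.2.prodMk hg.2⟩

theorem mvfderiv_extChartAt_X6 (x₀ x : X6) (hx : x ∈ (extChartAt I6 x₀).source) (v : E6) :
    mvfderiv I6 (extChartAt I6 x₀) x v
      = ((mvfderiv (𝓡 2) (extChartAt (𝓡 2) x₀.1) x.1 v.1,
        (mvfderiv (𝓡 2) (extChartAt (𝓡 2) x₀.2.1) x.2.1 v.2.1, v.2.2)) : E6) := by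
  rw [extChartAt_prod, extChartAt_prod, PartialEquiv.prod_source, PartialEquiv.prod_source] at hx
  obtain ⟨h1, h2, h3⟩ := hx
  have hfun : ((extChartAt I6 x₀) : X6 → E6) = fun y =>
      ((extChartAt (𝓡 2) x₀.1 y.1, (extChartAt (𝓡 2) x₀.2.1 y.2.1,
        extChartAt 𝓘(ℝ, E2) x₀.2.2 y.2.2)) : E6) := by
    funext y
    rw [extChartAt_prod, extChartAt_prod]
    simp only [PartialEquiv.prod_coe]
  have hA : HasMFDerivAt (𝓡 2) 𝓘(ℝ, E2) (extChartAt (𝓡 2) x₀.1) x.1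
      (mfderiv (𝓡 2) 𝓘(ℝ, E2) (extChartAt (𝓡 2) x₀.1) x.1) :=
    (mdifferentiableAt_extChartAt (by rwa [extChartAt_source] at h1)).hasMFDerivAt
  have hB : HasMFDerivAt (𝓡 2) 𝓘(ℝ, E2) (extChartAt (𝓡 2) x₀.2.1) x.2.1
      (mfderiv (𝓡 2) 𝓘(ℝ, E2) (extChartAt (𝓡 2) x₀.2.1) x.2.1) :=
    (mdifferentiableAt_extChartAt (by rwa [extChartAt_source] at h2)).hasMFDerivAt
  have hC : HasMFDerivAt 𝓘(ℝ, E2) 𝓘(ℝ, E2) (extChartAt 𝓘(ℝ, E2) x₀.2.2) x.2.2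
      (ContinuousLinearMap.id ℝ E2 : E2 →L[ℝ] E2) := by
    have h := (mdifferentiableAt_extChartAt (I := 𝓘(ℝ, E2)) (x := x₀.2.2) (y := x.2.2)
      (by rwa [extChartAt_source] at h3)).hasMFDerivAt
    rw [mfderiv_extChartAt_T2 _ _ h3] at h
    exact h
  have f1 : HasMFDerivAt I6 (𝓡 2) (fun y : X6 => y.1) x
      (ContinuousLinearMap.fst ℝ E2 (E2 × E2)) := hasMFDerivAt_fst x
  have f2' : HasMFDerivAt I6 ((𝓡 2).prod 𝓘(ℝ, E2)) (fun y : X6 => y.2) x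
      (ContinuousLinearMap.snd ℝ E2 (E2 × E2)) := hasMFDerivAt_snd x
  have f21 : HasMFDerivAt ((𝓡 2).prod 𝓘(ℝ, E2)) (𝓡 2) (fun y : P1 × T2 => y.1) x.2
      (ContinuousLinearMap.fst ℝ E2 E2) := hasMFDerivAt_fst x.2
  have f22 : HasMFDerivAt ((𝓡 2).prod 𝓘(ℝ, E2)) 𝓘(ℝ, E2) (fun y : P1 × T2 => y.2) x.2
      (ContinuousLinearMap.snd ℝ E2 E2) := hasMFDerivAt_snd x.2
  have f2 := f21.comp x f2'
  have f3 := f22.comp x f2'
  have g1 := hA.comp x f1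
  have g2 := hB.comp x f2
  have g3 := hC.comp x f3
  have g := hasMFDerivAt_prodMk_space6 _ _ x _ _ g1 (hasMFDerivAt_prodMk_space6 _ _ x _ _ g2 g3)
  have hg := g.mfderiv
  have hval : (mfderiv I6 𝓘(ℝ, E6) (extChartAt I6 x₀) x v : E6) =
      ((mfderiv (𝓡 2) 𝓘(ℝ, E2) (extChartAt (𝓡 2) x₀.1) x.1 v.1,
        (mfderiv (𝓡 2) 𝓘(ℝ, E2) (extChartAt (𝓡 2) x₀.2.1) x.2.1 v.2.1, v.2.2)) : E6) := by
    rw [hfun]
    exact congrArg (fun L : E6 →L[ℝ] E6 => L v) hg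
  exact hval

theorem inc6_mfderiv_symm (x₀ : X6) (y v : E6) :
    inc6 ((extChartAt I6 x₀).symm y)
      (mfderiv 𝓘(ℝ, E6) I6 (extChartAt I6 x₀).symm y v : E6)
      = dZ (Zc x₀.1) (Zc x₀.2.1) y v := by
  rw [mfderiv_extChartAt_X6_symm]
  have key : ∀ (x : X6), x = ((extChartAt (𝓡 2) x₀.1).symm y.1,
        ((extChartAt (𝓡 2) x₀.2.1).symm y.2.1, toT2 y.2.2)) →
      inc6 x ((mfderiv 𝓘(ℝ, E2) (𝓡 2) (extChartAt (𝓡 2) x₀.1).symm y.1 v.1,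
        (mfderiv 𝓘(ℝ, E2) (𝓡 2) (extChartAt (𝓡 2) x₀.2.1).symm y.2.1 v.2.1, v.2.2)) : E6)
        = dZ (Zc x₀.1) (Zc x₀.2.1) y v := by
    rintro x rfl
    exact Prod.ext (dInc_mfderiv_symm x₀.1 y.1 v.1)
      (Prod.ext (dInc_mfderiv_symm x₀.2.1 y.2.1 v.2.1) rfl)
  exact key _ (extChartAt_X6_symm x₀ y)

theorem formInChart_X6 (x₀ : X6) (y : E6) :
    formInChart form6 x₀ y = coordForm6 (Zc x₀.1) (Zc x₀.2.1) y := by
  refine ContinuousLinearMap.ext fun v => ContinuousLinearMap.ext fun v' => ?_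
  have h1 := inc6_mfderiv_symm x₀ y v
  have h2 := inc6_mfderiv_symm x₀ y v'
  have hx : (((extChartAt I6 x₀).symm y).1 : R3) = Zc x₀.1 y.1 := by
    rw [extChartAt_X6_symm]; rfl
  have hx' : (((extChartAt I6 x₀).symm y).2.1 : R3) = Zc x₀.2.1 y.2.1 := by
    rw [extChartAt_X6_symm]; rfl
  show formW8 (((extChartAt I6 x₀).symm y).1 : R3) (((extChartAt I6 x₀).symm y).2.1 : R3)
    (inc6 ((extChartAt I6 x₀).symm y) (mfderiv 𝓘(ℝ, E6) I6 (extChartAt I6 x₀).symm y v : E6))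
    (inc6 ((extChartAt I6 x₀).symm y) (mfderiv 𝓘(ℝ, E6) I6 (extChartAt I6 x₀).symm y v' : E6)) =
    formW8 (Zc x₀.1 y.1) (Zc x₀.2.1 y.2.1)
      (dZ (Zc x₀.1) (Zc x₀.2.1) y v) (dZ (Zc x₀.1) (Zc x₀.2.1) y v')
  rw [h1, h2, hx, hx']

theorem endoInChart_X6 (x₀ : X6) (y : E6) (hy : y ∈ (extChartAt I6 x₀).target) :
    endoInChart J6 x₀ y = coordEndo6 (Zc x₀.1) (Zc x₀.2.1) (Pc x₀.1) (Pc x₀.2.1) y := by
  refine ContinuousLinearMap.ext fun v => ?_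
  have hx : (extChartAt I6 x₀).symm y ∈ (extChartAt I6 x₀).source :=
    (extChartAt I6 x₀).map_target hy
  have h1 := inc6_mfderiv_symm x₀ y v
  have h2 := mvfderiv_extChartAt_X6 x₀ ((extChartAt I6 x₀).symm y) hx
    (J6 ((extChartAt I6 x₀).symm y) (mfderiv 𝓘(ℝ, E6) I6 (extChartAt I6 x₀).symm y v : E6))
  show mvfderiv I6 (extChartAt I6 x₀) ((extChartAt I6 x₀).symm y)
    (J6 ((extChartAt I6 x₀).symm y) (mfderiv 𝓘(ℝ, E6) I6 (extChartAt I6 x₀).symm y v : E6)) = _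
  refine h2.trans ?_
  have h4 : (J6 ((extChartAt I6 x₀).symm y)
      (mfderiv 𝓘(ℝ, E6) I6 (extChartAt I6 x₀).symm y v : E6) : E6)
      = (proj6 ((extChartAt I6 x₀).symm y)) (JL (((extChartAt I6 x₀).symm y).1 : R3)
        (((extChartAt I6 x₀).symm y).2.1 : R3) (inc6 ((extChartAt I6 x₀).symm y)
          (mfderiv 𝓘(ℝ, E6) I6 (extChartAt I6 x₀).symm y v : E6))) := rfl
  rw [h4, h1]
  have key : ∀ (x : X6), x = ((extChartAt (𝓡 2) x₀.1).symm y.1,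
        ((extChartAt (𝓡 2) x₀.2.1).symm y.2.1, toT2 y.2.2)) →
      ((mvfderiv (𝓡 2) (extChartAt (𝓡 2) x₀.1) x.1
        (proj6 x (JL x.1 x.2.1 (dZ (Zc x₀.1) (Zc x₀.2.1) y v))).1,
        (mvfderiv (𝓡 2) (extChartAt (𝓡 2) x₀.2.1) x.2.1
        (proj6 x (JL x.1 x.2.1 (dZ (Zc x₀.1) (Zc x₀.2.1) y v))).2.1,
        (proj6 x (JL x.1 x.2.1 (dZ (Zc x₀.1) (Zc x₀.2.1) y v))).2.2)) : E6) =
        coordEndo6 (Zc x₀.1) (Zc x₀.2.1) (Pc x₀.1) (Pc x₀.2.1) y v := by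
    rintro x rfl
    rfl
  exact key _ (extChartAt_X6_symm x₀ y)

theorem inc6_apply (x : X6) (v : E6) :
    inc6 x v = (dInc x.1 v.1, (dInc x.2.1 v.2.1, v.2.2)) := rfl

theorem inc6_injective (x : X6) : Function.Injective (inc6 x) := by
  intro v w h
  have h1 : dInc x.1 v.1 = dInc x.1 w.1 := congrArg Prod.fst h
  have h2 : dInc x.2.1 v.2.1 = dInc x.2.1 w.2.1 := congrArg (fun p : W8 => p.2.1) h
  have h3 : v.2.2 = w.2.2 := congrArg (fun p : W8 => p.2.2) h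
  exact Prod.ext (dInc_injective x.1 h1) (Prod.ext (dInc_injective x.2.1 h2) h3)

theorem inc6_orth (x : X6) (v : E6) : inner ℝ (x.1 : R3) (inc6 x v).1 = (0 : ℝ) ∧
    inner ℝ (x.2.1 : R3) (inc6 x v).2.1 = (0 : ℝ) :=
  ⟨inner_dInc x.1 v.1, inner_dInc x.2.1 v.2.1⟩

theorem inc6_J6 (x : X6) (v : E6) : inc6 x (J6 x v : E6) = JF x.1 x.2.1 (inc6 x v) := by
  obtain ⟨h1, h2⟩ := JF_orth (x.1 : R3) (x.2.1 : R3) (inc6 x v)
  have h3 : inc6 x (J6 x v : E6) =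
      (dInc x.1 (tanProj x.1 (JF x.1 x.2.1 (inc6 x v)).1),
        (dInc x.2.1 (tanProj x.2.1 (JF x.1 x.2.1 (inc6 x v)).2.1),
          (JF x.1 x.2.1 (inc6 x v)).2.2)) := rfl
  rw [h3, dInc_tanProj, dInc_tanProj, h1, h2, zero_smul, zero_smul, sub_zero, sub_zero]

theorem form6_apply (x : X6) (v w : E6) :
    (form6 x v w : ℝ) = formW8 x.1 x.2.1 (inc6 x v) (inc6 x w) := rfl

theorem form6_pos (x : X6) (v : E6) (hv : v ≠ 0) : 0 < (form6 x v (J6 x v) : ℝ) := by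
  have hne : inc6 x v ≠ 0 := by
    intro h0
    apply hv
    apply inc6_injective x
    rw [h0]
    exact (map_zero (inc6 x)).symm
  have h := formW8_pos x.1 x.2.1 (inner_self_P1 x.1) (inner_self_P1 x.2.1) (inc6 x v)
    (inc6_orth x v).1 (inc6_orth x v).2 hne
  rw [← inc6_J6] at h
  exact h

/-- the symplectic form -/
def Om6 : SymplecticForm I6 X6 where
  form := form6
  alt := by
    intro x v
    exact formW8_self _ _ _
  smooth := by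
    intro x₀
    have h : formInChart form6 x₀ = coordForm6 (Zc x₀.1) (Zc x₀.2.1) :=
      funext fun y => formInChart_X6 x₀ y
    rw [h]
    exact (contDiff_coordForm6 _ _ (contDiff_Zc _) (contDiff_Zc _)).contDiffOn
  closed := by
    intro x₀ y _ a b c
    have h : formInChart form6 x₀ = coordForm6 (Zc x₀.1) (Zc x₀.2.1) :=
      funext fun y => formInChart_X6 x₀ y
    rw [h]
    exact closed_coordForm6 _ _ (contDiff_Zc _) (contDiff_Zc _) y a b c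
  nondegenerate := by
    intro x v hv
    by_contra hne
    exact (form6_pos x v hne).ne' (hv (J6 x v))

/-- the almost complex structure -/
def K6 : AlmostComplex I6 X6 where
  J := J6
  smooth := by
    intro x₀
    have h3 : ContDiffOn ℝ ∞ (coordEndo6 (Zc x₀.1) (Zc x₀.2.1) (Pc x₀.1) (Pc x₀.2.1))
        (extChartAt I6 x₀).target :=
      (contDiff_coordEndo6 _ _ (contDiff_Zc _) (contDiff_Zc _) _ _
        (contDiff_Pc _) (contDiff_Pc _)).contDiffOn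
    refine ContDiffOn.congr h3 ?_
    intro y hy
    exact endoInChart_X6 x₀ y hy
  sq := by
    intro x v
    have key : ∀ v : E6, (J6 x (J6 x v : E6) : E6) = -v := by
      intro v
      apply inc6_injective x
      rw [inc6_J6, inc6_J6, JF_JF _ _ (inner_self_P1 _) (inner_self_P1 _) _ (inc6_orth x v).1
        (inc6_orth x v).2, map_neg]
    exact key v

theorem isCompatible_K6 : IsCompatible Om6 K6 := by
  constructor
  · intro x v w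
    have h := formW8_JF x.1 x.2.1 (inner_self_P1 x.1) (inner_self_P1 x.2.1) (inc6 x v) (inc6 x w)
      (inc6_orth x v).1 (inc6_orth x v).2 (inc6_orth x w).2
    rw [← inc6_J6, ← inc6_J6] at h
    exact h
  · intro x v hv
    exact form6_pos x v hv

end Pool.Agent.Helper449.RC
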