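import Mathlib
import Pool.Agent.Helper449.RC.Geo

/-!
# The holomorphic spheres
-/

open scoped Manifold ContDiff Topology
open Metric Set Bundle
open Pool.Agent.Helper206.Cover
open Pool.Agent.Helper206.Rat (SymplecticForm AlmostComplex IsCompatible IsHolomorphic
  RationalCurve)

noncomputable section

namespace Pool.Agent.Helper449.RC

attribute [local instance] factR3

/-- the spheres in the first factor -/
def uB (p : P1 × T2) (s : P1) : X6 := (s, p)

/-- the shifted point of the torus -/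
def sh (t : R3) (c : E2) (v : R3) : E2 := c + (v 2 / 2) • uv t

/-- the graphs over the spheres in the second factor -/
def uG (t : P1) (c : E2) (s : P1) : X6 := (t, (s, toT2 (sh (t : R3) c (s : R3))))

theorem cross_zero_right (t : R3) : cross t (0 : R3) = 0 := (crossL t).map_zero

theorem JF_left (t z v : R3) : JF t z ((v, 0) : W8) = ((cross t v, 0) : W8) := by
  have h1 : ze t z ((v, 0) : W8) = 0 := by
    ext i; fin_cases i <;> simp [ze, am]
  have h2 : et t ((v, 0) : W8) = 0 := by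
    ext i; fin_cases i <;> simp [et]
  refine Prod.ext rfl (Prod.ext ?_ ?_)
  · show cross z (ze t z ((v, 0) : W8)) - (dm t (et t ((v, 0) : W8))) • Xv z = 0
    rw [h1, h2, cross_zero_right]
    have : dm t 0 = 0 := by simp [dm]
    rw [this, zero_smul, sub_zero]
  · show ((cross z (ze t z ((v, 0) : W8))) 2 / 2) • uv t + rot (et t ((v, 0) : W8)) = 0
    rw [h1, h2, cross_zero_right]
    ext i; fin_cases i <;> simp [rot]

theorem JF_graph (t z ξ : R3) :
    JF t z ((0, (ξ, (ξ 2 / 2) • uv t)) : W8)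
      = ((0, (cross z ξ, ((cross z ξ) 2 / 2) • uv t)) : W8) := by
  have h1 : ze t z ((0, (ξ, (ξ 2 / 2) • uv t)) : W8) = ξ := by
    have : am t ((ξ 2 / 2) • uv t) = 0 := by simp [am, uv]; ring
    show ξ + (am t ((ξ 2 / 2) • uv t)) • Xv z = ξ
    rw [this, zero_smul, add_zero]
  have h2 : et t ((0, (ξ, (ξ 2 / 2) • uv t)) : W8) = 0 := sub_self _
  refine Prod.ext (cross_zero_right t) (Prod.ext ?_ ?_)
  · show cross z (ze t z ((0, (ξ, (ξ 2 / 2) • uv t)) : W8))
      - (dm t (et t ((0, (ξ, (ξ 2 / 2) • uv t)) : W8))) • Xv z = cross z ξ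
    rw [h1, h2]
    have : dm t 0 = 0 := by simp [dm]
    rw [this, zero_smul, sub_zero]
  · show ((cross z (ze t z ((0, (ξ, (ξ 2 / 2) • uv t)) : W8))) 2 / 2) • uv t
      + rot (et t ((0, (ξ, (ξ 2 / 2) • uv t)) : W8)) = ((cross z ξ) 2 / 2) • uv t
    rw [h1, h2]
    have : rot 0 = 0 := by
      ext i; fin_cases i <;> simp [rot]
    rw [this, add_zero]

theorem mfderiv_uB (p : P1 × T2) (z : P1) (w : TangentSpace (𝓡 2) z) :
    (mfderiv (𝓡 2) I6 (uB p) z w : E6) = ((w, 0) : E6) := by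
  have h : mfderiv (𝓡 2) I6 (uB p) z = ContinuousLinearMap.prod
      (mfderiv (𝓡 2) (𝓡 2) (fun z : P1 => z) z)
      (mfderiv (𝓡 2) ((𝓡 2).prod 𝓘(ℝ, E2)) (fun _ : P1 => p) z) := by
    exact mfderiv_prodMk mdifferentiableAt_id mdifferentiableAt_const
  have h4 : mfderiv (𝓡 2) (𝓡 2) (fun z : P1 => z) z = ContinuousLinearMap.id ℝ _ := mfderiv_id
  have h5 : mfderiv (𝓡 2) ((𝓡 2).prod 𝓘(ℝ, E2)) (fun _ : P1 => p) z = 0 := mfderiv_const
  rw [h4, h5] at h
  have h6 := congrArg (fun L : E2 →L[ℝ] E6 => L w) h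
  exact h6

theorem contMDiff_uB (p : P1 × T2) : ContMDiff (𝓡 2) I6 ∞ (uB p) :=
  contMDiff_id.prodMk contMDiff_const

theorem isHolomorphic_uB (p : P1 × T2) : IsHolomorphic (I' := 𝓡 2) jP1 K6 (uB p) := by
  refine ⟨contMDiff_uB p, fun z w => ?_⟩
  apply inc6_injective (uB p z)
  have e1 : (mfderiv (𝓡 2) I6 (uB p) z (jP1 z w) : E6) = ((jP1 z w, 0) : E6) := mfderiv_uB p z _
  have e2 := mfderiv_uB p z w
  have e3 := inc6_J6 (uB p z) (mfderiv (𝓡 2) I6 (uB p) z w : E6)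
  refine Eq.trans ?_ e3.symm
  refine (congrArg (inc6 (uB p z)) e1).trans ?_
  refine Eq.trans ?_ (congrArg (fun v : E6 => JF (z : R3) (p.1 : R3) (inc6 (uB p z) v)) e2).symm
  have h0 : dInc p.1 (0 : E2) = 0 := (dInc p.1).map_zero
  have h1 : ∀ v : E2, inc6 (uB p z) ((v, 0) : E6) = ((dInc z v, 0) : W8) := by
    intro v
    show ((dInc z v, (dInc p.1 (0 : E2), (0 : E2))) : W8) = ((dInc z v, 0) : W8)
    rw [h0]
    rfl
  refine (h1 (jP1 z w)).trans ?_
  refine Eq.trans ?_ (congrArg (fun q : W8 => JF (z : R3) (p.1 : R3) q) (h1 w)).symm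
  refine Eq.trans ?_ (JF_left (z : R3) (p.1 : R3) (dInc z w)).symm
  exact congrArg (fun q : R3 => ((q, 0) : W8)) (dInc_jP1 z w)

/-- the derivative of the shift -/
def shL (t : R3) : R3 →L[ℝ] E2 :=
  LinearMap.toContinuousLinearMap
    { toFun := fun v : R3 => (v 2 / 2) • uv t
      map_add' := fun a b => by
        show ((a 2 + b 2) / 2) • uv t = (a 2 / 2) • uv t + (b 2 / 2) • uv t
        module
      map_smul' := fun r a => by
        show ((r * a 2) / 2) • uv t = r • (a 2 / 2) • uv t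
        module }

theorem shL_apply (t v : R3) : shL t v = (v 2 / 2) • uv t := rfl

theorem sh_eq (t : R3) (c : E2) (v : R3) : sh t c v = c + shL t v := rfl

theorem hasFDerivAt_sh (t : R3) (c : E2) (v : R3) : HasFDerivAt (sh t c) (shL t) v :=
  (shL t).hasFDerivAt.const_add c

theorem contDiff_sh (t : R3) (c : E2) : ContDiff ℝ ∞ (sh t c) :=
  contDiff_const.add (shL t).contDiff

theorem contMDiff_uG (t : P1) (c : E2) : ContMDiff (𝓡 2) I6 ∞ (uG t c) := by
  have h1 : ContMDiff (𝓡 2) 𝓘(ℝ, R3) ∞ (fun z : P1 => (z : R3)) := contMDiff_coe_sphere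
  have h2 : ContMDiff (𝓡 2) 𝓘(ℝ, E2) ∞ (fun z : P1 => toT2 (sh (t : R3) c (z : R3))) :=
    contMDiff_toT2.comp ((contDiff_sh (t : R3) c).contMDiff.comp h1)
  exact contMDiff_const.prodMk (contMDiff_id.prodMk h2)

theorem mfderiv_uG (t : P1) (c : E2) (s : P1) (w : TangentSpace (𝓡 2) s) :
    (mfderiv (𝓡 2) I6 (uG t c) s w : E6) = ((0, (w, shL (t : R3) (dInc s w))) : E6) := by
  have h1 : HasMFDerivAt (𝓡 2) (𝓡 2) (fun _ : P1 => t) s (0 : E2 →L[ℝ] E2) :=
    hasMFDerivAt_const t s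
  have h2 : HasMFDerivAt (𝓡 2) (𝓡 2) (fun s : P1 => s) s (ContinuousLinearMap.id ℝ E2) :=
    hasMFDerivAt_id s
  have h3 : HasMFDerivAt (𝓡 2) 𝓘(ℝ, R3) (fun z : P1 => (z : R3)) s
      (mfderiv (𝓡 2) 𝓘(ℝ, R3) (fun z : P1 => (z : R3)) s) :=
    (((contMDiff_coe_sphere (n := 2) (E := R3) (m := ∞)) s).mdifferentiableAt
      (by simp)).hasMFDerivAt
  have h4 : HasMFDerivAt 𝓘(ℝ, R3) 𝓘(ℝ, E2) (sh (t : R3) c) (s : R3) (shL (t : R3)) :=
    (hasFDerivAt_sh (t : R3) c (s : R3)).hasMFDerivAt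
  have h5 : HasMFDerivAt 𝓘(ℝ, E2) 𝓘(ℝ, E2) toT2 (sh (t : R3) c (s : R3))
      (ContinuousLinearMap.id ℝ E2 : E2 →L[ℝ] E2) := by
    have h1 := ((contMDiff_toT2 (sh (t : R3) c (s : R3))).mdifferentiableAt
      (by simp)).hasMFDerivAt
    rw [mfderiv_toT2] at h1
    exact h1
  have h6 := h5.comp s (h4.comp s h3)
  have g := h1.prodMk (h2.prodMk h6)
  have hfun : uG t c = fun s : P1 => ((t, (s, ((toT2 ∘ (sh (t : R3) c ∘ fun z : P1 => (z : R3))) s)))
      : X6) := rfl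
  rw [hfun]
  have := g.mfderiv
  erw [this]
  rfl

theorem isHolomorphic_uG (t : P1) (c : E2) : IsHolomorphic (I' := 𝓡 2) jP1 K6 (uG t c) := by
  refine ⟨contMDiff_uG t c, fun z w => ?_⟩
  apply inc6_injective (uG t c z)
  have e1 : (mfderiv (𝓡 2) I6 (uG t c) z (jP1 z w) : E6)
      = ((0, (jP1 z w, shL (t : R3) (dInc z (jP1 z w)))) : E6) := mfderiv_uG t c z _
  have e2 := mfderiv_uG t c z w
  have e3 := inc6_J6 (uG t c z) (mfderiv (𝓡 2) I6 (uG t c) z w : E6)
  refine Eq.trans ?_ e3.symm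
  refine (congrArg (inc6 (uG t c z)) e1).trans ?_
  refine Eq.trans ?_ (congrArg (fun v : E6 => JF (t : R3) (z : R3) (inc6 (uG t c z) v)) e2).symm
  have h0 : dInc t (0 : E2) = 0 := (dInc t).map_zero
  have h1 : ∀ (v : E2) (η : E2), inc6 (uG t c z) ((0, (v, η)) : E6)
      = ((0, (dInc z v, η)) : W8) := by
    intro v η
    show ((dInc t (0 : E2), (dInc z v, η)) : W8) = ((0, (dInc z v, η)) : W8)
    rw [h0]
  refine (h1 (jP1 z w) _).trans ?_
  refine Eq.trans ?_ (congrArg (fun q : W8 => JF (t : R3) (z : R3) q)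
    (h1 w (shL (t : R3) (dInc z w)))).symm
  refine Eq.trans ?_ (JF_graph (t : R3) (z : R3) (dInc z w)).symm
  exact congrArg (fun q : R3 => ((0, (q, shL (t : R3) q)) : W8)) (dInc_jP1 z w)

theorem uB_injective (p : P1 × T2) : Function.Injective (uB p) := fun _ _ h => congrArg Prod.fst h

theorem uG_injective (t : P1) (c : E2) : Function.Injective (uG t c) :=
  fun _ _ h => congrArg (fun x : X6 => x.2.1) h

end Pool.Agent.Helper449.RC
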