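import Mathlib
import Pool.Agent.Helper449.RC.Curves

/-!
# Chains of spheres
-/

open scoped Manifold ContDiff Topology
open Metric Set Bundle
open Pool.Agent.Helper206.Cover
open Pool.Agent.Helper206.Rat (SymplecticForm AlmostComplex IsCompatible IsHolomorphic
  RationalCurve)

noncomputable section

namespace Pool.Agent.Helper449.RC

attribute [local instance] factR3

/-- the adjacency relation of a path graph is decidable -/
instance decPath (n : ℕ) : DecidableRel (SimpleGraph.pathGraph n).Adj := fun a b =>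
  decidable_of_iff (a.val + 1 = b.val ∨ b.val + 1 = a.val) SimpleGraph.pathGraph_adj.symm

theorem isTree_path : (SimpleGraph.pathGraph 7).IsTree := by
  rw [SimpleGraph.isTree_iff_connected_and_card]
  refine ⟨SimpleGraph.pathGraph_connected 6, ?_⟩
  have h : (SimpleGraph.pathGraph 7).edgeFinset.card = 6 := by
    have h1 := (SimpleGraph.pathGraph 7).sum_degrees_eq_twice_card_edges
    have h2 : ∑ v, (SimpleGraph.pathGraph 7).degree v = 12 := by decide
    omega
  rw [← SimpleGraph.coe_edgeFinset, Nat.card_coe_set_eq, Set.ncard_coe_finset, h]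
  simp

/-- a chain of seven spheres -/
def chain (u : Fin 7 → P1 → X6) (p q : Fin 7 → P1)
    (hu : ∀ a, IsHolomorphic (I' := 𝓡 2) jP1 K6 (u a))
    (hne : ∀ a : Fin 7, 0 < a.val → a.val < 6 → p a ≠ q a)
    (heq : ∀ a b : Fin 7, a.val + 1 = b.val → u a (p a) = u b (q b))
    (hnc : ∃ a z w, u a z ≠ u a w) : RationalCurve (I' := 𝓡 2) jP1 K6 where
  n := 7
  graph := SimpleGraph.pathGraph 7
  isTree := isTree_path
  node := fun a b => if a.val + 1 = b.val then p a else q a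
  node_ne := by
    intro a b c hab hac hbc
    rw [SimpleGraph.pathGraph_adj] at hab hac
    have hb := b.2
    have hc := c.2
    by_cases h1 : a.val + 1 = b.val
    · have h2 : ¬ a.val + 1 = c.val := fun h => hbc (Fin.ext (h1.symm.trans h))
      rw [if_pos h1, if_neg h2]
      exact hne a (by omega) (by omega)
    · have h2 : a.val + 1 = c.val := by
        by_contra h2
        exact hbc (Fin.ext (by omega))
      rw [if_neg h1, if_pos h2]
      exact (hne a (by omega) (by omega)).symm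
  u := u
  holomorphic := hu
  node_eq := by
    intro a b hab
    rw [SimpleGraph.pathGraph_adj] at hab
    rcases hab with h | h
    · rw [if_pos h, if_neg (by omega)]
      exact heq a b h
    · rw [if_neg (by omega), if_pos h]
      exact (heq b a h).symm
  nonconstant := hnc

/-- the points of the sphere from coordinates -/
def mkP (a b c : ℝ) (h : a ^ 2 + b ^ 2 + c ^ 2 = 1) : P1 :=
  ⟨!₂[a, b, c], by
    rw [mem_sphere_zero_iff_norm, EuclideanSpace.norm_eq, Real.sqrt_eq_one, Fin.sum_univ_three]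
    simpa using h⟩

/-- the south pole -/
def SP : P1 := mkP 0 0 (-1) (by norm_num)

/-- the north pole -/
def NP : P1 := mkP 0 0 1 (by norm_num)

/-- the height -/
def ht (z : P1) : ℝ := (z : R3) 2

theorem ht_mkP (a b c : ℝ) (h : a ^ 2 + b ^ 2 + c ^ 2 = 1) : ht (mkP a b c h) = c := rfl

theorem uv_mkP (a b c : ℝ) (h : a ^ 2 + b ^ 2 + c ^ 2 = 1) :
    uv (mkP a b c h : P1) = !₂[a, b] := rfl

theorem uv_SP : uv (SP : P1) = 0 := by
  rw [SP, uv_mkP]
  ext i; fin_cases i <;> rfl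

theorem sq_P1 (z : P1) : (z : R3) 0 ^ 2 + (z : R3) 1 ^ 2 + (z : R3) 2 ^ 2 = 1 := by
  have h := inner_self_P1 z
  rw [formW_pos_dot] at h
  nlinarith [h]

theorem ht_mem (z : P1) : -1 ≤ ht z ∧ ht z ≤ 1 := by
  have h := sq_P1 z
  constructor
  · unfold ht; nlinarith [sq_nonneg ((z : R3) 0), sq_nonneg ((z : R3) 1)]
  · unfold ht; nlinarith [sq_nonneg ((z : R3) 0), sq_nonneg ((z : R3) 1)]

theorem ht_neg (z : P1) : ht (-z) = -ht z := rfl

theorem neg_ne (z : P1) : -z ≠ z := by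
  intro h
  have h2 := inner_self_P1 z
  have h3 : -((z : P1) : R3) = (z : R3) := by
    have := congrArg (fun z : P1 => (z : R3)) h
    simpa using this
  have h4 : ((z : P1) : R3) = 0 := by
    have h5 : (2 : ℝ) • ((z : P1) : R3) = 0 := by
      rw [two_smul]
      nth_rewrite 1 [← h3]
      simp
    exact (smul_eq_zero.1 h5).resolve_left two_ne_zero
  rw [h4, inner_zero_left] at h2
  exact zero_ne_one h2

theorem uG_SP (c : E2) (s : P1) : uG SP c s = (SP, (s, toT2 c)) := by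
  unfold uG sh
  rw [uv_SP, smul_zero, add_zero]

theorem uG_apply (t : P1) (c : E2) (s : P1) :
    uG t c s = (t, (s, toT2 (c + (ht s / 2) • uv (t : R3)))) := rfl

/-! ### ranges -/

theorem range_uB_inj {p p' : P1 × T2} (h : range (uB p) = range (uB p')) : p = p' := by
  have h1 : uB p SP ∈ range (uB p') := h ▸ mem_range_self SP
  obtain ⟨s, hs⟩ := h1
  exact (congrArg Prod.snd hs).symm

theorem range_uG_inj {t t' : P1} {c c' : E2} (h : range (uG t c) = range (uG t' c')) : t = t' := by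
  have h1 : uG t c SP ∈ range (uG t' c') := h ▸ mem_range_self SP
  obtain ⟨s, hs⟩ := h1
  exact (congrArg Prod.fst hs).symm

theorem range_uG_SP_inj {c c' : E2} (h : range (uG SP c) = range (uG SP c')) :
    toT2 c = toT2 c' := by
  have h1 : uG SP c SP ∈ range (uG SP c') := h ▸ mem_range_self SP
  obtain ⟨s, hs⟩ := h1
  rw [uG_SP, uG_SP] at hs
  exact (congrArg (fun x : X6 => x.2.2) hs).symm

theorem range_uB_ne_uG (p : P1 × T2) (t : P1) (c : E2) : range (uB p) ≠ range (uG t c) := by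
  intro h
  have h1 : uB p (-t) ∈ range (uG t c) := h ▸ mem_range_self (-t)
  obtain ⟨s, hs⟩ := h1
  exact neg_ne t (congrArg Prod.fst hs).symm

section chain7

variable (z₀ z₁ z₂ z₃ t : P1) (c c' : E2)

/-- the maps of the chain -/
def chU : Fin 7 → P1 → X6 :=
  ![uB (z₀, toT2 c), uG SP c, uB (z₁, toT2 c), uG t (c - (ht z₁ / 2) • uv (t : R3)),
    uB (z₂, toT2 c'), uG SP c', uB (z₃, toT2 c')]

/-- the forward nodes -/
def chP : Fin 7 → P1 := ![SP, z₁, t, z₂, SP, z₃, SP]

/-- the backward nodes -/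
def chQ : Fin 7 → P1 := ![SP, z₀, SP, z₁, t, z₂, SP]

theorem chU_hol (a : Fin 7) : IsHolomorphic (I' := 𝓡 2) jP1 K6 (chU z₀ z₁ z₂ z₃ t c c' a) := by
  fin_cases a
  · exact isHolomorphic_uB _
  · exact isHolomorphic_uG _ _
  · exact isHolomorphic_uB _
  · exact isHolomorphic_uG _ _
  · exact isHolomorphic_uB _
  · exact isHolomorphic_uG _ _
  · exact isHolomorphic_uB _

theorem chU_injective (a : Fin 7) : Function.Injective (chU z₀ z₁ z₂ z₃ t c c' a) := by
  fin_cases a
  · exact uB_injective _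
  · exact uG_injective _ _
  · exact uB_injective _
  · exact uG_injective _ _
  · exact uB_injective _
  · exact uG_injective _ _
  · exact uB_injective _

variable {z₀ z₁ z₂ z₃ t c c'}

theorem ch_ne (h01 : z₀ ≠ z₁) (h12 : z₁ ≠ z₂) (h23 : z₂ ≠ z₃) (ht : t ≠ SP) (a : Fin 7)
    (ha : 0 < a.val) (ha' : a.val < 6) : chP z₁ z₂ z₃ t a ≠ chQ z₀ z₁ z₂ t a := by
  fin_cases a
  · exact absurd ha (by simp)
  · exact h01.symm
  · exact ht
  · exact h12.symm
  · exact ht.symm
  · exact h23.symm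
  · exact absurd ha' (by simp)

theorem ch_eq (hc : toT2 c' = toT2 (c + ((ht z₂ - ht z₁) / 2) • uv (t : R3)))
    (a b : Fin 7) (hab : a.val + 1 = b.val) :
    chU z₀ z₁ z₂ z₃ t c c' a (chP z₁ z₂ z₃ t a) = chU z₀ z₁ z₂ z₃ t c c' b (chQ z₀ z₁ z₂ t b) := by
  have e1 : c - (ht z₁ / 2) • uv (t : R3) + (ht z₁ / 2) • uv (t : R3) = c := by abel
  have e2 : c - (ht z₁ / 2) • uv (t : R3) + (ht z₂ / 2) • uv (t : R3)
      = c + ((ht z₂ - ht z₁) / 2) • uv (t : R3) := by module
  have k0 : uB (z₀, toT2 c) SP = uG SP c z₀ := (uG_SP c z₀).symm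
  have k1 : uG SP c z₁ = uB (z₁, toT2 c) SP := uG_SP c z₁
  have k2 : uB (z₁, toT2 c) t = uG t (c - (ht z₁ / 2) • uv (t : R3)) z₁ := by
    rw [uG_apply, e1]; rfl
  have k3 : uG t (c - (ht z₁ / 2) • uv (t : R3)) z₂ = uB (z₂, toT2 c') t := by
    rw [uG_apply, e2, ← hc]; rfl
  have k4 : uB (z₂, toT2 c') SP = uG SP c' z₂ := (uG_SP c' z₂).symm
  have k5 : uG SP c' z₃ = uB (z₃, toT2 c') SP := uG_SP c' z₃
  have hb := b.2
  have hcase : (a = 0 ∧ b = 1) ∨ (a = 1 ∧ b = 2) ∨ (a = 2 ∧ b = 3) ∨ (a = 3 ∧ b = 4)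
      ∨ (a = 4 ∧ b = 5) ∨ (a = 5 ∧ b = 6) := by omega
  rcases hcase with ⟨rfl, rfl⟩ | ⟨rfl, rfl⟩ | ⟨rfl, rfl⟩ | ⟨rfl, rfl⟩ | ⟨rfl, rfl⟩ | ⟨rfl, rfl⟩
  · exact k0
  · exact k1
  · exact k2
  · exact k3
  · exact k4
  · exact k5

theorem ch_range (h01 : z₀ ≠ z₁) (h23 : z₂ ≠ z₃) (ht : t ≠ SP) (hw : toT2 c ≠ toT2 c')
    (a b : Fin 7) (hab : a ≠ b) :
    range (chU z₀ z₁ z₂ z₃ t c c' a) ≠ range (chU z₀ z₁ z₂ z₃ t c c' b) := by
  have hBG : ∀ p t c, range (uB p) ≠ range (uG t c) := range_uB_ne_uG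
  have hGB : ∀ p t c, range (uG t c) ≠ range (uB p) := fun p t c => (range_uB_ne_uG p t c).symm
  have hB : ∀ {z z' : P1} {w w' : T2}, z ≠ z' → range (uB (z, w)) ≠ range (uB (z', w')) :=
    fun h h' => h (congrArg Prod.fst (range_uB_inj h'))
  have hB' : ∀ {z z' : P1} {w w' : T2}, w ≠ w' → range (uB (z, w)) ≠ range (uB (z', w')) :=
    fun h h' => h (congrArg Prod.snd (range_uB_inj h'))
  have hG : ∀ {t t' : P1} {c c' : E2}, t ≠ t' → range (uG t c) ≠ range (uG t' c') :=
    fun h h' => h (range_uG_inj h')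
  have hS : range (uG SP c) ≠ range (uG SP c') := fun h => hw (range_uG_SP_inj h)
  have key : ∀ a b : Fin 7, a < b →
      range (chU z₀ z₁ z₂ z₃ t c c' a) ≠ range (chU z₀ z₁ z₂ z₃ t c c' b) := by
    intro a b hlt
    fin_cases a <;> fin_cases b
    all_goals first
      | exact absurd hlt (by decide)
      | exact hBG _ _ _
      | exact hGB _ _ _
      | exact hB h01
      | exact hB h23
      | exact hB' hw
      | exact hG ht
      | exact hG ht.symm
      | exact hS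
  rcases lt_or_gt_of_ne hab with h | h
  · exact key a b h
  · exact (key b a h).symm

/-- the chain of spheres -/
def ch (h01 : z₀ ≠ z₁) (h12 : z₁ ≠ z₂) (h23 : z₂ ≠ z₃) (hts : t ≠ SP)
    (hc : toT2 c' = toT2 (c + ((ht z₂ - ht z₁) / 2) • uv (t : R3))) :
    RationalCurve (I' := 𝓡 2) jP1 K6 :=
  chain (chU z₀ z₁ z₂ z₃ t c c') (chP z₁ z₂ z₃ t) (chQ z₀ z₁ z₂ t)
    (chU_hol z₀ z₁ z₂ z₃ t c c') (ch_ne h01 h12 h23 hts) (ch_eq hc)
    ⟨0, SP, NP, fun h => by
      have h1 : SP = NP := uB_injective _ h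
      have h2 : ht SP = ht NP := by rw [h1]
      rw [SP, NP, ht_mkP, ht_mkP] at h2
      norm_num at h2⟩

end chain7

end Pool.Agent.Helper449.RC
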