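import Mathlib
import Pool.Agent.Helper206.Rat.Defs

/-!
# The homology class of a rational curve
-/

open scoped Manifold ContDiff Topology
open Metric Set Bundle
open Pool.Agent.Helper206.Cover (EndoField)
open Pool.Agent.Helper206.Rat (AlmostComplex IsHolomorphic RationalCurve)

noncomputable section

namespace Pool.Agent.Helper449.RC

/-- The singular homology group `H₂(X; ℤ)` of Mathlib. -/
abbrev H2 (X : Type) [TopologicalSpace X] : ModuleCat.{0} ℤ :=
  ((AlgebraicTopology.singularHomologyFunctor (ModuleCat.{0} ℤ) 2).obj (ModuleCat.of ℤ ℤ)).obj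
    (TopCat.of X)

/-- The homomorphism `f_* : H₂(X; ℤ) → H₂(Y; ℤ)` induced by a continuous map `f : X → Y`. -/
def H2map {X Y : Type} [TopologicalSpace X] [TopologicalSpace Y] (f : C(X, Y)) :
    H2 X →ₗ[ℤ] H2 Y :=
  (((AlgebraicTopology.singularHomologyFunctor (ModuleCat.{0} ℤ) 2).obj (ModuleCat.of ℤ ℤ)).map
    (TopCat.ofHom f)).hom

section

variable {E : Type*} [NormedAddCommGroup E] [NormedSpace ℝ E] {H : Type*} [TopologicalSpace H]
  {I : ModelWithCorners ℝ E H} {X : Type} [TopologicalSpace X] [ChartedSpace H X]
  {E' : Type*} [NormedAddCommGroup E'] [NormedSpace ℝ E'] {H' : Type*} [TopologicalSpace H']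
  {I' : ModelWithCorners ℝ E' H'} {S : Type} [TopologicalSpace S] [ChartedSpace H' S]

/-- The homology class of a rational curve with components `u_a : S → X`, where `σ : H₂(S; ℤ)` is
the fundamental class of the sphere `S`: the sum of the classes `(u_a)_* σ` of its components. -/
def curveClass {j : EndoField I' S} {J : AlmostComplex I X} (C : RationalCurve j J) (σ : H2 S) :
    H2 X :=
  ∑ a, H2map ⟨C.u a, (C.holomorphic a).1.continuous⟩ σ

end

theorem H2map_congr {X Y : Type} [TopologicalSpace X] [TopologicalSpace Y] {f g : C(X, Y)}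
    (h : f.Homotopic g) : H2map f = H2map g := by
  obtain ⟨H⟩ := h
  have H' : TopCat.Homotopy (TopCat.ofHom f) (TopCat.ofHom g) := H
  have h1 := H'.congr_homologyMap_singularChainComplexFunctor (ModuleCat.of ℤ ℤ) 2
  exact congrArg ModuleCat.Hom.hom h1

/-- the members of a family over a path connected space are homotopic -/
theorem homotopic_of_family {P S X : Type} [TopologicalSpace P] [TopologicalSpace S]
    [TopologicalSpace X] [PathConnectedSpace P] (F : P → S → X)
    (hF : Continuous (fun x : P × S => F x.1 x.2)) (p q : P) (hp : Continuous (F p))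
    (hq : Continuous (F q)) : (⟨F p, hp⟩ : C(S, X)).Homotopic ⟨F q, hq⟩ := by
  obtain ⟨γ⟩ := PathConnectedSpace.joined p q
  refine ⟨{ toFun := fun x => F (γ x.1) x.2
            continuous_toFun := ?_
            map_zero_left := ?_
            map_one_left := ?_ }⟩
  · exact hF.comp ((γ.continuous.comp continuous_fst).prodMk continuous_snd)
  · intro s
    simp
  · intro s
    simp

end Pool.Agent.Helper449.RC
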