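import Mathlib
import Pool.Agent.Helper449.RC.Chain
import Pool.Agent.Helper449.RC.Class

/-!
# Any two points lie on a chain of seven spheres in a fixed class
-/

open scoped Manifold ContDiff Topology
open Metric Set Bundle
open Pool.Agent.Helper206.Cover
open Pool.Agent.Helper206.Rat (SymplecticForm AlmostComplex IsCompatible IsHolomorphic
  RationalCurve)

noncomputable section

namespace Pool.Agent.Helper449.RC

attribute [local instance] factR3

theorem pathConnectedSpace_P1 : PathConnectedSpace P1 := by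
  apply isPathConnected_iff_pathConnectedSpace.1
  apply isPathConnected_sphere
  · rw [← Module.finrank_eq_rank, finrank_euclideanSpace_fin]
    norm_num
  · norm_num

theorem continuous_toT2 : Continuous toT2 := contMDiff_toT2.continuous

theorem continuous_uB (p : P1 × T2) : Continuous (uB p) := (contMDiff_uB p).continuous

theorem continuous_uG (t : P1) (c : E2) : Continuous (uG t c) := (contMDiff_uG t c).continuous

theorem continuous_uv : Continuous uv := (cd_uv contDiff_id).continuous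

/-- the homomorphism induced by the first kind of spheres -/
def clB : H2 P1 →ₗ[ℤ] H2 X6 := H2map ⟨uB (SP, toT2 0), continuous_uB _⟩

/-- the homomorphism induced by the second kind of spheres -/
def clG : H2 P1 →ₗ[ℤ] H2 X6 := H2map ⟨uG SP 0, continuous_uG _ _⟩

/-- the homology class `4 B + 3 G` -/
def clA (σ : H2 P1) : H2 X6 :=
  clB σ + clG σ + clB σ + clG σ + clB σ + clG σ + clB σ

theorem H2map_uB (z : P1) (c : E2) (h : Continuous (uB (z, toT2 c))) :
    H2map ⟨uB (z, toT2 c), h⟩ = clB := by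
  haveI := pathConnectedSpace_P1
  refine H2map_congr ?_
  refine homotopic_of_family (P := P1 × E2) (fun p => uB (p.1, toT2 p.2)) ?_ (z, c) (SP, 0) h
    (continuous_uB _)
  exact continuous_snd.prodMk ((continuous_fst.comp continuous_fst).prodMk
    (continuous_toT2.comp (continuous_snd.comp continuous_fst)))

theorem H2map_uG (t : P1) (c : E2) (h : Continuous (uG t c)) :
    H2map ⟨uG t c, h⟩ = clG := by
  haveI := pathConnectedSpace_P1
  refine H2map_congr ?_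
  refine homotopic_of_family (P := P1 × E2) (fun p => uG p.1 p.2) ?_ (t, c) (SP, 0) h
    (continuous_uG _ _)
  have h1 : Continuous (fun x : (P1 × E2) × P1 => ((x.1.1 : P1) : R3)) :=
    continuous_subtype_val.comp (continuous_fst.comp continuous_fst)
  have h2 : Continuous (fun x : (P1 × E2) × P1 => ((x.2 : P1) : R3) 2) := by
    have h : Continuous (fun v : R3 => v 2) := by fun_prop
    exact h.comp (continuous_subtype_val.comp continuous_snd)
  have h3 : Continuous (fun x : (P1 × E2) × P1 => sh (x.1.1 : R3) x.1.2 (x.2 : R3)) :=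
    (continuous_snd.comp continuous_fst).add ((h2.div_const 2).smul (continuous_uv.comp h1))
  exact (continuous_fst.comp continuous_fst).prodMk (continuous_snd.prodMk
    (continuous_toT2.comp h3))

section chain7

variable {z₀ z₁ z₂ z₃ t : P1} {c c' : E2}

theorem curveClass_ch (h01 : z₀ ≠ z₁) (h12 : z₁ ≠ z₂) (h23 : z₂ ≠ z₃) (hts : t ≠ SP)
    (hc : toT2 c' = toT2 (c + ((ht z₂ - ht z₁) / 2) • uv (t : R3))) (σ : H2 P1) :
    curveClass (ch h01 h12 h23 hts hc) σ = clA σ := by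
  have h : curveClass (ch h01 h12 h23 hts hc) σ = ∑ a : Fin 7,
      H2map ⟨chU z₀ z₁ z₂ z₃ t c c' a, (chU_hol z₀ z₁ z₂ z₃ t c c' a).1.continuous⟩ σ := rfl
  rw [h, Fin.sum_univ_seven]
  have k0 : H2map ⟨chU z₀ z₁ z₂ z₃ t c c' 0, (chU_hol z₀ z₁ z₂ z₃ t c c' 0).1.continuous⟩ = clB :=
    H2map_uB z₀ c _
  have k1 : H2map ⟨chU z₀ z₁ z₂ z₃ t c c' 1, (chU_hol z₀ z₁ z₂ z₃ t c c' 1).1.continuous⟩ = clG :=
    H2map_uG SP c _
  have k2 : H2map ⟨chU z₀ z₁ z₂ z₃ t c c' 2, (chU_hol z₀ z₁ z₂ z₃ t c c' 2).1.continuous⟩ = clB :=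
    H2map_uB z₁ c _
  have k3 : H2map ⟨chU z₀ z₁ z₂ z₃ t c c' 3, (chU_hol z₀ z₁ z₂ z₃ t c c' 3).1.continuous⟩ = clG :=
    H2map_uG t _ _
  have k4 : H2map ⟨chU z₀ z₁ z₂ z₃ t c c' 4, (chU_hol z₀ z₁ z₂ z₃ t c c' 4).1.continuous⟩ = clB :=
    H2map_uB z₂ c' _
  have k5 : H2map ⟨chU z₀ z₁ z₂ z₃ t c c' 5, (chU_hol z₀ z₁ z₂ z₃ t c c' 5).1.continuous⟩ = clG :=
    H2map_uG SP c' _
  have k6 : H2map ⟨chU z₀ z₁ z₂ z₃ t c c' 6, (chU_hol z₀ z₁ z₂ z₃ t c c' 6).1.continuous⟩ = clB :=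
    H2map_uB z₃ c' _
  rw [k0, k1, k2, k3, k4, k5, k6]
  rfl

theorem mem_ch (h01 : z₀ ≠ z₁) (h12 : z₁ ≠ z₂) (h23 : z₂ ≠ z₃) (hts : t ≠ SP)
    (hc : toT2 c' = toT2 (c + ((ht z₂ - ht z₁) / 2) • uv (t : R3))) (a : Fin 7) (s : P1) :
    chU z₀ z₁ z₂ z₃ t c c' a s ∈ (ch h01 h12 h23 hts hc).image :=
  Set.mem_iUnion.2 ⟨a, s, rfl⟩

end chain7

theorem toT2_add_int (c : E2) (m : Fin 2 → ℤ) : toT2 (c + WithLp.toLp 2 fun i => (m i : ℝ)) = toT2 c := by
  funext i
  show (((c i + (m i : ℝ)) : ℝ) : AddCircle (1 : ℝ)) = ((c i : ℝ) : AddCircle (1 : ℝ))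
  rw [AddCircle.coe_add]
  have : (((m i : ℝ)) : AddCircle (1 : ℝ)) = 0 := by
    rw [AddCircle.coe_eq_zero_iff]
    exact ⟨m i, by simp⟩
  rw [this, add_zero]

/-- a point of the circle action with prescribed shear -/
theorem exists_shear (r : E2) (h0 : |r 0| ≤ 1 / 2) (h1 : |r 1| ≤ 1 / 2) :
    ∃ t : P1, t ≠ SP ∧ (4 / 5 : ℝ) • uv (t : R3) = r := by
  have h0' : (r 0) ^ 2 ≤ 1 / 4 := by
    have := abs_le.1 h0
    nlinarith [this.1, this.2]
  have h1' : (r 1) ^ 2 ≤ 1 / 4 := by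
    have := abs_le.1 h1
    nlinarith [this.1, this.2]
  have hpos : 0 < 1 - 25 / 16 * ((r 0) ^ 2 + (r 1) ^ 2) := by linarith
  have hs := Real.sq_sqrt hpos.le
  have hsp := Real.sqrt_pos.2 hpos
  refine ⟨mkP (5 / 4 * r 0) (5 / 4 * r 1) (Real.sqrt (1 - 25 / 16 * ((r 0) ^ 2 + (r 1) ^ 2)))
    (by rw [hs]; ring), ?_, ?_⟩
  · intro h
    have h2 := congrArg ht h
    rw [ht_mkP, SP, ht_mkP] at h2
    linarith
  · rw [uv_mkP]
    ext i
    fin_cases i
    · show (4 / 5 : ℝ) * (5 / 4 * r 0) = r 0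
      ring
    · show (4 / 5 : ℝ) * (5 / 4 * r 1) = r 1
      ring

/-- a point at height `h = ± 4/5` away from a given point -/
theorem exists_height (z : P1) (h : ℝ) (hh : h ^ 2 = 16 / 25) : ∃ e : P1, e ≠ z ∧ ht e = h := by
  have k1 : (3 / 5 : ℝ) ^ 2 + 0 ^ 2 + h ^ 2 = 1 := by rw [hh]; norm_num
  have k2 : (-(3 / 5) : ℝ) ^ 2 + 0 ^ 2 + h ^ 2 = 1 := by rw [hh]; norm_num
  by_cases hz : mkP (3 / 5) 0 h k1 = z
  · refine ⟨mkP (-(3 / 5)) 0 h k2, ?_, rfl⟩
    intro h'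
    rw [← hz] at h'
    have := congrArg (fun p : P1 => (p : R3) 0) h'
    have h3 : (-(3 / 5) : ℝ) = 3 / 5 := this
    norm_num at h3
  · exact ⟨mkP (3 / 5) 0 h k1, hz, rfl⟩

/-- the conclusion about curves -/
def Good (C : RationalCurve (I' := 𝓡 2) jP1 K6) : Prop :=
  C.n = 7 ∧ (∀ a, Function.Injective (C.u a)) ∧ (∀ a b, a ≠ b → range (C.u a) ≠ range (C.u b)) ∧
    ∀ σ : H2 P1, curveClass C σ = clA σ

theorem good_ch {z₀ z₁ z₂ z₃ t : P1} {c c' : E2} (h01 : z₀ ≠ z₁) (h12 : z₁ ≠ z₂) (h23 : z₂ ≠ z₃)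
    (hts : t ≠ SP) (hc : toT2 c' = toT2 (c + ((ht z₂ - ht z₁) / 2) • uv (t : R3)))
    (hw : toT2 c ≠ toT2 c') : Good (ch h01 h12 h23 hts hc) :=
  ⟨rfl, chU_injective z₀ z₁ z₂ z₃ t c c', ch_range h01 h23 hts hw, curveClass_ch h01 h12 h23 hts hc⟩

theorem exists_curve (x y : X6) :
    ∃ C : RationalCurve (I' := 𝓡 2) jP1 K6, x ∈ C.image ∧ y ∈ C.image ∧ Good C := by
  obtain ⟨tx, zx, wx⟩ := x
  obtain ⟨ty, zy, wy⟩ := y
  obtain ⟨c, rfl⟩ : ∃ c, toT2 c = wx := ⟨liftT2 wx, toT2_liftT2 wx⟩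
  obtain ⟨c', rfl⟩ : ∃ c, toT2 c = wy := ⟨liftT2 wy, toT2_liftT2 wy⟩
  by_cases hw : toT2 c = toT2 c'
  · -- the same point of the torus
    rw [← hw]
    set z₁ : P1 := if zx = zy then -zx else zy with hz₁
    have h01 : zx ≠ z₁ := by
      rw [hz₁]
      split_ifs with h
      · exact (neg_ne zx).symm
      · exact h
    set e : P1 := if 0 ≤ ht z₁ then SP else NP with he
    have hSP : ht SP = -1 := rfl
    have hNP : ht NP = 1 := rfl
    have hb := ht_mem z₁
    have hκ : (1 / 2 ≤ (ht e - ht z₁) / 2 ∧ (ht e - ht z₁) / 2 ≤ 1) ∨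
        (-1 ≤ (ht e - ht z₁) / 2 ∧ (ht e - ht z₁) / 2 ≤ -(1 / 2)) := by
      rw [he]
      split_ifs with h
      · right
        rw [hSP]
        constructor <;> linarith [hb.1, hb.2]
      · left
        rw [hNP]
        constructor <;> linarith [hb.1, hb.2]
    have h12 : z₁ ≠ e := by
      intro h
      rw [← h, sub_self] at hκ
      rcases hκ with h | h <;> norm_num at h
    have hk : (3 / 5 : ℝ) ^ 2 + 0 ^ 2 + (4 / 5) ^ 2 = 1 := by norm_num
    have hts : mkP (3 / 5) 0 (4 / 5) hk ≠ SP := by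
      intro h
      have h2 := congrArg ht h
      rw [ht_mkP, hSP] at h2
      norm_num at h2
    have hcc : toT2 c ≠ toT2 (c + ((ht e - ht z₁) / 2) • uv (mkP (3 / 5) 0 (4 / 5) hk : R3)) := by
      intro h
      have h2 := congrFun h 0
      have h3 : ((c 0 : ℝ) : AddCircle (1 : ℝ))
          = ((c 0 + (ht e - ht z₁) / 2 * (3 / 5) : ℝ) : AddCircle (1 : ℝ)) := h2
      rw [AddCircle.coe_add, left_eq_add, AddCircle.coe_eq_zero_iff] at h3
      obtain ⟨n, hn⟩ := h3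
      rw [zsmul_eq_mul, mul_one] at hn
      rcases hκ with h | h
      · have h4 : (0 : ℝ) < n := by rw [hn]; linarith [h.1]
        have h5 : (n : ℝ) < 1 := by rw [hn]; linarith [h.2]
        have h6 : 0 < n := by exact_mod_cast h4
        have h7 : n < 1 := by exact_mod_cast h5
        omega
      · have h4 : (n : ℝ) < 0 := by rw [hn]; linarith [h.2]
        have h5 : (-1 : ℝ) < n := by rw [hn]; linarith [h.1]
        have h6 : n < 0 := by exact_mod_cast h4
        have h7 : -1 < n := by exact_mod_cast h5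
        omega
    refine ⟨ch (z₀ := zx) (z₁ := z₁) (z₂ := e) (z₃ := -e) (c := c) h01 h12 (neg_ne e).symm
      hts rfl, ?_, ?_, good_ch _ _ _ _ _ hcc⟩
    · exact mem_ch _ _ _ _ _ 0 tx
    · by_cases hz : zx = zy
      · rw [← hz]
        exact mem_ch _ _ _ _ _ 0 ty
      · have hzz : z₁ = zy := if_neg hz
        have := mem_ch (z₀ := zx) (z₁ := z₁) (z₂ := e) (z₃ := -e) (c := c) h01 h12 (neg_ne e).symm
          hts rfl 2 ty
        have h8 : chU zx z₁ e (-e) (mkP (3 / 5) 0 (4 / 5) hk) c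
          (c + ((ht e - ht z₁) / 2) • uv (mkP (3 / 5) 0 (4 / 5) hk : R3)) 2 ty
            = (ty, (zy, toT2 c)) := by
          rw [← hzz]
          rfl
        rw [h8] at this
        exact this
  · -- different points of the torus
    obtain ⟨z₁, h10, hz₁⟩ := exists_height zx (4 / 5) (by norm_num)
    obtain ⟨z₂, h23, hz₂⟩ := exists_height zy (-(4 / 5)) (by norm_num)
    have h12 : z₁ ≠ z₂ := by
      intro h
      rw [h, hz₂] at hz₁
      norm_num at hz₁
    set r : E2 := WithLp.toLp 2 fun i => (c i - c' i) - (round (c i - c' i) : ℝ) with hr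
    have hri : ∀ i, |r i| ≤ 1 / 2 := fun i => abs_sub_round (c i - c' i)
    obtain ⟨t, hts, htr⟩ := exists_shear r (hri 0) (hri 1)
    have hc : toT2 c' = toT2 (c + ((ht z₂ - ht z₁) / 2) • uv (t : R3)) := by
      rw [hz₁, hz₂]
      have e1 : ((-(4 / 5) - 4 / 5) / 2 : ℝ) • uv (t : R3) = -r := by
        rw [← htr, ← neg_smul]
        congr 1
        norm_num
      rw [e1]
      rw [← toT2_add_int c' (fun i => round (c i - c' i))]
      congr 1
      ext i
      show c' i + (round (c i - c' i) : ℝ) = c i + -((c i - c' i) - (round (c i - c' i) : ℝ))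
      ring
    refine ⟨ch (z₀ := zx) (z₁ := z₁) (z₂ := z₂) (z₃ := zy) (c := c) (c' := c') h10.symm h12 h23
      hts hc, ?_, ?_, good_ch _ _ _ _ _ hw⟩
    · exact mem_ch _ _ _ _ _ 0 tx
    · exact mem_ch _ _ _ _ _ 6 ty

end Pool.Agent.Helper449.RC
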