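import Mathlib
import Pool.Agent.Helper449.RC.Geo

/-!
# The fundamental group is infinite
-/

open scoped Manifold ContDiff Topology unitInterval
open Metric Set Bundle
open Pool.Agent.Helper206.Cover

noncomputable section

namespace Pool.Agent.Helper449.RC

/-- the loop -/
def lpE (c : E2) (n : ℤ) (s : ℝ) : E2 := c + (s * n) • (EuclideanSpace.single 0 (1 : ℝ))

theorem lpE_zero (c : E2) (n : ℤ) : lpE c n 0 = c := by
  unfold lpE
  rw [zero_mul, zero_smul, add_zero]

theorem toT2_lpE_one (c : E2) (n : ℤ) : toT2 (lpE c n 1) = toT2 c := by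
  funext i
  unfold lpE toT2
  fin_cases i
  · show (((c 0 + ((1 * (n : ℝ)) • (EuclideanSpace.single 0 (1 : ℝ)) : E2) 0 : ℝ)) : AddCircle (1 : ℝ))
      = ((c 0 : ℝ) : AddCircle (1 : ℝ))
    rw [AddCircle.coe_add]
    have : (((((1 * (n : ℝ)) • (EuclideanSpace.single 0 (1 : ℝ)) : E2) 0 : ℝ)) : AddCircle (1 : ℝ))
        = 0 := by
      rw [AddCircle.coe_eq_zero_iff]
      exact ⟨n, by simp⟩
    rw [this, add_zero]
  · show (((c 1 + ((1 * (n : ℝ)) • (EuclideanSpace.single 0 (1 : ℝ)) : E2) 1 : ℝ)) : AddCircle (1 : ℝ))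
      = ((c 1 : ℝ) : AddCircle (1 : ℝ))
    simp

theorem continuous_lpE (c : E2) (n : ℤ) : Continuous (lpE c n) := by
  unfold lpE
  fun_prop

/-- the loop in the manifold -/
def lp (t z : P1) (c : E2) (n : ℤ) : Path ((t, (z, toT2 c)) : X6) ((t, (z, toT2 c)) : X6) where
  toFun s := (t, (z, toT2 (lpE c n (s : ℝ))))
  continuous_toFun := by
    have h : Continuous (fun s : I => toT2 (lpE c n (s : ℝ))) :=
      contMDiff_toT2.continuous.comp ((continuous_lpE c n).comp continuous_subtype_val)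
    exact continuous_const.prodMk (continuous_const.prodMk h)
  source' := by
    show ((t, (z, toT2 (lpE c n (0 : ℝ)))) : X6) = _
    rw [lpE_zero]
  target' := by
    show ((t, (z, toT2 (lpE c n (1 : ℝ)))) : X6) = _
    rw [toT2_lpE_one]

/-- the projection to the circle -/
def prC (x : X6) : AddCircle (1 : ℝ) := (x.2.2 : Fin 2 → AddCircle (1 : ℝ)) 0

theorem continuous_prC : Continuous prC := by
  have h : Continuous (fun w : T2 => (w : Fin 2 → AddCircle (1 : ℝ)) 0) := continuous_apply 0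
  exact h.comp (continuous_snd.comp continuous_snd)

/-- the lift of the loop -/
def lft (c : E2) (n : ℤ) : C(I, ℝ) := ⟨fun s => c 0 + (s : ℝ) * n, by fun_prop⟩

theorem lp_injective (t z : P1) (c : E2) (n m : ℤ) (h : (lp t z c n).Homotopic (lp t z c m)) :
    n = m := by
  have cov := AddCircle.isCoveringMap_coe (1 : ℝ)
  have h1 := h.map (⟨prC, continuous_prC⟩ : C(X6, AddCircle (1 : ℝ)))
  have hl : ∀ k : ℤ, ∀ s : I, (((lp t z c k).map continuous_prC) s : AddCircle (1 : ℝ))
      = ((lft c k s : ℝ) : AddCircle (1 : ℝ)) := by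
    intro k s
    show (((c 0 + (((s : ℝ) * (k : ℝ)) • (EuclideanSpace.single 0 (1 : ℝ)) : E2) 0 : ℝ))
      : AddCircle (1 : ℝ)) = (((c 0 + (s : ℝ) * k) : ℝ) : AddCircle (1 : ℝ))
    congr 1
    simp
  have h0 : ∀ k : ℤ, lft c k 0 = c 0 := by
    intro k
    show c 0 + ((0 : I) : ℝ) * k = c 0
    simp
  have h2 : ∀ k : ℤ, ∀ h₀, lft c k =
      cov.liftPath ((lp t z c k).map continuous_prC).toContinuousMap (c 0) h₀ := by
    intro k h₀
    rw [cov.eq_liftPath_iff']
    refine ⟨?_, h0 k⟩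
    funext s
    exact (hl k s).symm
  have hs : ∀ k : ℤ, ((lp t z c k).map continuous_prC).toContinuousMap 0
      = ((c 0 : ℝ) : AddCircle (1 : ℝ)) := by
    intro k
    rw [← h0 k]
    exact hl k 0
  have h3 := cov.liftPath_apply_one_eq_of_homotopicRel h1 (c 0) (hs n) (hs m)
  have h4 : lft c n 1 = lft c m 1 := by
    rw [h2 n (hs n), h2 m (hs m)]
    exact h3
  have h5 : c 0 + ((1 : I) : ℝ) * n = c 0 + ((1 : I) : ℝ) * m := h4
  simpa using h5

theorem infinite_pi1 (x : X6) : Infinite (FundamentalGroup X6 x) := by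
  obtain ⟨t, z, w⟩ := x
  obtain ⟨c, rfl⟩ : ∃ c, toT2 c = w := ⟨liftT2 w, toT2_liftT2 w⟩
  refine Infinite.of_injective (fun n : ℤ => FundamentalGroup.fromPath
    (Path.Homotopic.Quotient.mk (lp t z c n))) ?_
  intro n m h
  have h1 : Path.Homotopic.Quotient.mk (lp t z c n) = Path.Homotopic.Quotient.mk (lp t z c m) := h
  exact lp_injective t z c n m (Path.Homotopic.Quotient.eq.1 h1)

theorem not_simplyConnected : ¬ SimplyConnectedSpace X6 := by
  intro h
  have x : X6 := Classical.arbitrary _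
  have h1 := infinite_pi1 x
  have h2 : Subsingleton (Path.Homotopic.Quotient x x) := inferInstance
  have h3 : Subsingleton (FundamentalGroup X6 x) := h2
  exact not_finite (FundamentalGroup X6 x)

end Pool.Agent.Helper449.RC
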