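import Mathlib
import Pool.Agent.Helper206.Rat.Geometry
import Pool.Agent.Helper449.RC.Alg

/-!
# Holomorphic maps from the sphere to the torus are constant
-/

open scoped Manifold ContDiff Topology
open Metric Set Bundle
open Pool.Agent.Helper206.Cover
open Pool.Agent.Helper206.Rat (sphP_surjective hol_sphP_rot eq_zero_of_integral)

noncomputable section

namespace Pool.Agent.Helper449.RC

attribute [local instance] factR3

theorem sphP_per (q : ℝ × ℝ) : sphP (q.1 + 2 * Real.pi, q.2) = sphP q := by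
  apply Subtype.ext
  show sph (q.1 + 2 * Real.pi, q.2) = sph q
  unfold sph
  simp only [Real.cos_add_two_pi, Real.sin_add_two_pi]

theorem sphP_zero (t : ℝ) : sphP (t, 0) = sphP (0, 0) := by
  apply Subtype.ext
  show sph (t, 0) = sph (0, 0)
  unfold sph
  simp

/-- a continuous lift of a coordinate -/
theorem exists_lift (f : ℝ × ℝ → AddCircle (1 : ℝ)) (hf : Continuous f) :
    ∃ F : ℝ × ℝ → ℝ, Continuous F ∧ ∀ q, ((F q : ℝ) : AddCircle (1 : ℝ)) = f q := by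
  have cov := AddCircle.isCoveringMap_coe (1 : ℝ)
  obtain ⟨e, he⟩ : ∃ e : ℝ, (e : AddCircle (1 : ℝ)) = f (0, 0) := QuotientAddGroup.mk_surjective _
  obtain ⟨F, ⟨-, hF⟩, -⟩ := cov.existsUnique_continuousMap_lifts (⟨f, hf⟩ : C(ℝ × ℝ, _)) (0, 0) e he
  exact ⟨F, F.continuous, fun q => congrFun hF q⟩

/-- lifts are periodic -/
theorem lift_per (f : ℝ × ℝ → AddCircle (1 : ℝ)) (F : ℝ × ℝ → ℝ) (hF : Continuous F)
    (h : ∀ q, ((F q : ℝ) : AddCircle (1 : ℝ)) = f q)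
    (hper : ∀ q : ℝ × ℝ, f (q.1 + 2 * Real.pi, q.2) = f q)
    (h0 : ∀ t : ℝ, f (t, 0) = f (0, 0)) (q : ℝ × ℝ) : F (q.1 + 2 * Real.pi, q.2) = F q := by
  have cov := AddCircle.isCoveringMap_coe (1 : ℝ)
  have h1 : F (2 * Real.pi, 0) = F (0, 0) := by
    have hc : Continuous (fun t : ℝ => F (t, 0)) := hF.comp (by fun_prop)
    exact cov.const_of_comp hc (fun a b => by rw [h, h, h0 a, h0 b]) (2 * Real.pi) 0
  have hc2 : Continuous (fun q : ℝ × ℝ => F (q.1 + 2 * Real.pi, q.2)) := hF.comp (by fun_prop)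
  have h2 := cov.eq_of_comp_eq hc2 hF (by
    funext q
    show ((F (q.1 + 2 * Real.pi, q.2) : ℝ) : AddCircle (1 : ℝ)) = ((F q : ℝ) : AddCircle (1 : ℝ))
    rw [h, h, hper]) (0, 0) (by
      show F ((0 : ℝ) + 2 * Real.pi, 0) = F (0, 0)
      rw [zero_add, h1])
  exact congrFun h2 q

/-- a continuous lift of a smooth map to the torus is smooth -/
theorem lift_smooth (G : ℝ × ℝ → T2) (hG : ContMDiff 𝓘(ℝ, ℝ × ℝ) 𝓘(ℝ, E2) ∞ G)
    (L : ℝ × ℝ → E2) (hL : Continuous L) (h : ∀ q, toT2 (L q) = G q) : ContDiff ℝ ∞ L := by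
  rw [contDiff_iff_contDiffAt]
  intro q₀
  have hmem : (cubeT2 (L q₀)).symm ∈ atlas E2 T2 := ⟨L q₀, rfl⟩
  have hmax : (cubeT2 (L q₀)).symm ∈ IsManifold.maximalAtlas 𝓘(ℝ, E2) ∞ T2 :=
    IsManifold.subset_maximalAtlas hmem
  have h1 := contMDiffOn_of_mem_maximalAtlas hmax
  have hxs : L q₀ ∈ (cubeT2 (L q₀)).source := by
    rw [cubeT2_source]; intro i; constructor <;> linarith
  have hxt : toT2 (L q₀) ∈ (cubeT2 (L q₀)).target := by
    rw [← cubeT2_apply (L q₀)]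
    exact (cubeT2 (L q₀)).map_source hxs
  have hGt : G q₀ ∈ (cubeT2 (L q₀)).symm.source := by
    rw [← h q₀]
    exact hxt
  have h2 : ContMDiffAt 𝓘(ℝ, ℝ × ℝ) 𝓘(ℝ, E2) ∞ (fun q => (cubeT2 (L q₀)).symm (G q)) q₀ :=
    (h1.contMDiffAt ((cubeT2 (L q₀)).symm.open_source.mem_nhds hGt)).comp q₀ (hG q₀)
  have h3 : ContDiffAt ℝ ∞ (fun q => (cubeT2 (L q₀)).symm (G q)) q₀ := h2.contDiffAt
  obtain ⟨n, hn⟩ := chartT2_comp_toT2 (L q₀) (L q₀) hxt
  have h4 : ∀ᶠ q in 𝓝 q₀, (cubeT2 (L q₀)).symm (toT2 (L q)) = L q + n :=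
    hL.continuousAt.eventually hn
  have h5 : ContDiffAt ℝ ∞ (fun q => (cubeT2 (L q₀)).symm (G q) - n) q₀ :=
    h3.sub contDiffAt_const
  refine h5.congr_of_eventuallyEq ?_
  filter_upwards [h4] with q hq
  rw [← h q, hq, add_sub_cancel_right]

theorem lift_mfderiv (G : ℝ × ℝ → T2) (L : ℝ × ℝ → E2) (hL : ContDiff ℝ ∞ L)
    (h : ∀ q, toT2 (L q) = G q) (q v : ℝ × ℝ) :
    (mfderiv 𝓘(ℝ, ℝ × ℝ) 𝓘(ℝ, E2) G q v : E2) = fderiv ℝ L q v := by
  have hGL : G = toT2 ∘ L := funext fun q => (h q).symm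
  have h1 : MDifferentiableAt 𝓘(ℝ, E2) 𝓘(ℝ, E2) toT2 (L q) :=
    (contMDiff_toT2 (L q)).mdifferentiableAt (by simp)
  have h2 : MDifferentiableAt 𝓘(ℝ, ℝ × ℝ) 𝓘(ℝ, E2) L q :=
    (hL.contMDiff q).mdifferentiableAt (by simp)
  have h3 := mfderiv_comp q h1 h2
  rw [mfderiv_toT2] at h3
  rw [hGL, h3]
  rw [mfderiv_eq_fderiv]
  rfl

/-- a solution of the Cauchy-Riemann equations in spherical coordinates is constant -/
theorem cr_const (A B : ℝ × ℝ → ℝ) (hA : ContDiff ℝ ∞ A) (hB : ContDiff ℝ ∞ B)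
    (hAper : ∀ q : ℝ × ℝ, A (q.1 + 2 * Real.pi, q.2) = A q)
    (hBper : ∀ q : ℝ × ℝ, B (q.1 + 2 * Real.pi, q.2) = B q)
    (h1 : ∀ q : ℝ × ℝ, fderiv ℝ A q (1, 0) = -(Real.sin q.2 * fderiv ℝ B q (0, 1)))
    (h2 : ∀ q : ℝ × ℝ, fderiv ℝ B q (1, 0) = Real.sin q.2 * fderiv ℝ A q (0, 1))
    (q q' : ℝ × ℝ) (hq0 : 0 ≤ q.2) (hq1 : q.2 ≤ Real.pi) (hq0' : 0 ≤ q'.2) (hq1' : q'.2 ≤ Real.pi) :
    A q = A q' ∧ B q = B q' := by
  have hfper : ∀ f : ℝ × ℝ → ℝ, (∀ q : ℝ × ℝ, f (q.1 + 2 * Real.pi, q.2) = f q) →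
      ∀ q : ℝ × ℝ, fderiv ℝ f (q.1 + 2 * Real.pi, q.2) = fderiv ℝ f q := by
    intro f hf q
    have h1 : (fun x : ℝ × ℝ => f (x + (2 * Real.pi, 0))) = f := by
      funext x
      have : x + (2 * Real.pi, 0) = (x.1 + 2 * Real.pi, x.2) := by
        ext <;> simp
      rw [this, hf x]
    have h2 : (q.1 + 2 * Real.pi, q.2) = q + (2 * Real.pi, 0) := by
      ext <;> simp
    rw [h2, ← fderiv_comp_add_right, h1]
  have hst := stokes_sph A B (hA.of_le (by norm_cast)) (hB.of_le (by norm_cast)) hAper hBper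
    (fun t => by rw [h1]; simp) (fun t => by rw [h1]; simp)
  set F : ℝ × ℝ → ℝ := fun x => fderiv ℝ A x (0, 1) * fderiv ℝ B x (1, 0)
        - fderiv ℝ A x (1, 0) * fderiv ℝ B x (0, 1) with hF_def
  have hFeq : ∀ x, F x = Real.sin x.2 * ((fderiv ℝ A x (0, 1)) ^ 2 + (fderiv ℝ B x (0, 1)) ^ 2) := by
    intro x
    simp only [hF_def, h1, h2]
    ring
  have hFc : Continuous F := by
    have c1 : Continuous (fderiv ℝ A) := hA.continuous_fderiv (by norm_num)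
    have c2 : Continuous (fderiv ℝ B) := hB.continuous_fderiv (by norm_num)
    exact ((c1.clm_apply continuous_const).mul (c2.clm_apply continuous_const)).sub
      ((c1.clm_apply continuous_const).mul (c2.clm_apply continuous_const))
  have hFpos : ∀ t p, 0 ≤ p → p ≤ Real.pi → 0 ≤ F (t, p) := by
    intro t p hp hp'
    rw [hFeq]
    exact mul_nonneg (Real.sin_nonneg_of_nonneg_of_le_pi hp hp') (by positivity)
  have hFper : ∀ q : ℝ × ℝ, F (q.1 + 2 * Real.pi, q.2) = F q := by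
    intro q
    rw [hFeq, hFeq, hfper A hAper, hfper B hBper]
  have hzero : ∀ x : ℝ × ℝ, 0 < x.2 → x.2 < Real.pi → fderiv ℝ A x = 0 ∧ fderiv ℝ B x = 0 := by
    intro x hx0 hx1
    have h3 := eq_zero_of_integral F hFc hFpos hFper hst x.1 x.2 hx0.le hx1.le
    have h3' : F x = 0 := h3
    rw [hFeq] at h3'
    have hs := Real.sin_pos_of_pos_of_lt_pi hx0 hx1
    have h4 := (mul_eq_zero.1 h3').resolve_left hs.ne'
    have h5 : fderiv ℝ A x (0, 1) = 0 := by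
      have : (fderiv ℝ A x (0, 1)) ^ 2 = 0 := by
        have a1 := sq_nonneg (fderiv ℝ A x (0, 1))
        have a2 := sq_nonneg (fderiv ℝ B x (0, 1))
        linarith
      exact pow_eq_zero_iff (two_ne_zero) |>.1 this
    have h6 : fderiv ℝ B x (0, 1) = 0 := by
      have : (fderiv ℝ B x (0, 1)) ^ 2 = 0 := by
        have a1 := sq_nonneg (fderiv ℝ A x (0, 1))
        have a2 := sq_nonneg (fderiv ℝ B x (0, 1))
        linarith
      exact pow_eq_zero_iff (two_ne_zero) |>.1 this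
    have key : ∀ L : ℝ × ℝ →L[ℝ] ℝ, L (1, 0) = 0 → L (0, 1) = 0 → L = 0 := by
      intro L hL1 hL2
      apply ContinuousLinearMap.ext
      rintro ⟨x, y⟩
      have : ((x, y) : ℝ × ℝ) = x • (1, 0) + y • (0, 1) := by
        ext <;> simp
      rw [this, map_add, map_smul, map_smul, hL1, hL2]
      simp
    exact ⟨key _ (by rw [h1, h6]; simp) h5, key _ (by rw [h2, h5]; simp) h6⟩
  set O : Set (ℝ × ℝ) := univ ×ˢ Ioo 0 Real.pi with hO
  have hOopen : IsOpen O := isOpen_univ.prod isOpen_Ioo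
  have hOpre : IsPreconnected O := isPreconnected_univ.prod isPreconnected_Ioo
  have hOcl : ∀ x : ℝ × ℝ, 0 ≤ x.2 → x.2 ≤ Real.pi → x ∈ closure O := by
    intro x hx0 hx1
    rw [hO, closure_prod_eq, closure_univ, closure_Ioo (by positivity)]
    exact ⟨mem_univ _, hx0, hx1⟩
  have hx₀ : ((0, Real.pi / 2) : ℝ × ℝ) ∈ O :=
    ⟨mem_univ _, by show (0:ℝ) < Real.pi / 2; positivity, by
      show Real.pi / 2 < Real.pi; linarith [Real.pi_pos]⟩
  have hcst : ∀ f : ℝ × ℝ → ℝ, ContDiff ℝ ∞ f → (∀ x ∈ O, fderiv ℝ f x = 0) →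
      ∀ x : ℝ × ℝ, 0 ≤ x.2 → x.2 ≤ Real.pi → f x = f (0, Real.pi / 2) := by
    intro f hf hf0 x hx0 hx1
    have hd : Differentiable ℝ f := hf.differentiable (by simp)
    have e1 : ∀ y ∈ O, f y = f (0, Real.pi / 2) := fun y hy =>
      hOopen.is_const_of_fderiv_eq_zero (𝕜 := ℝ) hOpre hd.differentiableOn (fun w hw => hf0 w hw)
        hy hx₀
    have hcl : IsClosed {y | f y = f (0, Real.pi / 2)} :=
      isClosed_eq hd.continuous continuous_const
    exact hcl.closure_subset_iff.2 e1 (hOcl x hx0 hx1)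
  have hA0 := hcst A hA (fun x hx => (hzero x hx.2.1 hx.2.2).1)
  have hB0 := hcst B hB (fun x hx => (hzero x hx.2.1 hx.2.2).2)
  exact ⟨(hA0 q hq0 hq1).trans (hA0 q' hq0' hq1').symm,
    (hB0 q hq0 hq1).trans (hB0 q' hq0' hq1').symm⟩

/-- a holomorphic map from the sphere to the torus is constant -/
theorem const_T2 (g : P1 → T2) (hg : ContMDiff (𝓡 2) 𝓘(ℝ, E2) ∞ g)
    (hhol : ∀ (z : P1) (w : TangentSpace (𝓡 2) z),
      (mfderiv (𝓡 2) 𝓘(ℝ, E2) g z (jP1 z w) : E2) = rot (mfderiv (𝓡 2) 𝓘(ℝ, E2) g z w : E2))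
    (a b : P1) : g a = g b := by
  set G : ℝ × ℝ → T2 := fun q => g (sphP q) with hG
  have hGs : ContMDiff 𝓘(ℝ, ℝ × ℝ) 𝓘(ℝ, E2) ∞ G := hg.comp contMDiff_sphP
  have hGc : ∀ i : Fin 2, Continuous (fun q => (G q : Fin 2 → AddCircle (1 : ℝ)) i) := by
    intro i
    have h : Continuous (fun w : T2 => (w : Fin 2 → AddCircle (1 : ℝ)) i) := continuous_apply i
    exact h.comp hGs.continuous
  obtain ⟨A, hAc, hA⟩ := exists_lift _ (hGc 0)
  obtain ⟨B, hBc, hB⟩ := exists_lift _ (hGc 1)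
  set L : ℝ × ℝ → E2 := fun q => !₂[A q, B q] with hL
  have hLG : ∀ q, toT2 (L q) = G q := by
    intro q
    funext i
    fin_cases i
    · exact hA q
    · exact hB q
  have hLc : Continuous L := by
    have h : Continuous (fun q => ![A q, B q]) := by
      refine continuous_pi fun i => ?_
      fin_cases i
      · exact hAc
      · exact hBc
    exact (PiLp.continuous_toLp 2 _).comp h
  have hLs : ContDiff ℝ ∞ L := lift_smooth G hGs L hLc hLG
  have hAs : ContDiff ℝ ∞ A := contDiff_euclidean.1 hLs 0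
  have hBs : ContDiff ℝ ∞ B := contDiff_euclidean.1 hLs 1
  have hGper : ∀ q : ℝ × ℝ, G (q.1 + 2 * Real.pi, q.2) = G q := by
    intro q
    show g (sphP (q.1 + 2 * Real.pi, q.2)) = g (sphP q)
    rw [sphP_per]
  have hG0 : ∀ t : ℝ, G (t, 0) = G (0, 0) := by
    intro t
    show g (sphP (t, 0)) = g (sphP (0, 0))
    rw [sphP_zero]
  have hAper := lift_per _ A hAc hA (fun q => by rw [hGper]) (fun t => by rw [hG0])
  have hBper := lift_per _ B hBc hB (fun q => by rw [hGper]) (fun t => by rw [hG0])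
  have hcomp : ∀ q v : ℝ × ℝ, fderiv ℝ L q v =
      (mfderiv (𝓡 2) 𝓘(ℝ, E2) g (sphP q) (mfderiv 𝓘(ℝ, ℝ × ℝ) (𝓡 2) sphP q v) : E2) := by
    intro q v
    rw [← lift_mfderiv G L hLs hLG q v]
    have h1 : MDifferentiableAt (𝓡 2) 𝓘(ℝ, E2) g (sphP q) :=
      (hg (sphP q)).mdifferentiableAt (by simp)
    have h2 : MDifferentiableAt 𝓘(ℝ, ℝ × ℝ) (𝓡 2) sphP q :=
      (contMDiff_sphP q).mdifferentiableAt (by simp)
    have h3 := mfderiv_comp q h1 h2
    have h4 : G = g ∘ sphP := rfl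
    rw [h4, h3]
    rfl
  have hcr : ∀ q : ℝ × ℝ, fderiv ℝ L q (1, 0) = Real.sin q.2 • rot (fderiv ℝ L q (0, 1)) := by
    intro q
    rw [hcomp, hcomp, hol_sphP_rot, ← hhol]
    exact (mfderiv (𝓡 2) 𝓘(ℝ, E2) g (sphP q)).map_smul _ _
  have hLA : ∀ q v, fderiv ℝ A q v = (fderiv ℝ L q v) 0 := by
    intro q v
    have h1 : HasFDerivAt (fun q => (EuclideanSpace.proj (0 : Fin 2) : E2 →L[ℝ] ℝ) (L q))
        ((EuclideanSpace.proj (0 : Fin 2) : E2 →L[ℝ] ℝ).comp (fderiv ℝ L q)) q :=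
      (EuclideanSpace.proj (0 : Fin 2) : E2 →L[ℝ] ℝ).hasFDerivAt.comp q
        (hLs.differentiable (by simp) q).hasFDerivAt
    have h2 : (fun q => (EuclideanSpace.proj (0 : Fin 2) : E2 →L[ℝ] ℝ) (L q)) = A := rfl
    rw [h2] at h1
    rw [h1.fderiv]
    rfl
  have hLB : ∀ q v, fderiv ℝ B q v = (fderiv ℝ L q v) 1 := by
    intro q v
    have h1 : HasFDerivAt (fun q => (EuclideanSpace.proj (1 : Fin 2) : E2 →L[ℝ] ℝ) (L q))
        ((EuclideanSpace.proj (1 : Fin 2) : E2 →L[ℝ] ℝ).comp (fderiv ℝ L q)) q :=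
      (EuclideanSpace.proj (1 : Fin 2) : E2 →L[ℝ] ℝ).hasFDerivAt.comp q
        (hLs.differentiable (by simp) q).hasFDerivAt
    have h2 : (fun q => (EuclideanSpace.proj (1 : Fin 2) : E2 →L[ℝ] ℝ) (L q)) = B := rfl
    rw [h2] at h1
    rw [h1.fderiv]
    rfl
  obtain ⟨q, hq0, hq1, rfl⟩ := sphP_surjective a
  obtain ⟨q', hq0', hq1', rfl⟩ := sphP_surjective b
  have h := cr_const A B hAs hBs hAper hBper
    (fun q => by
      rw [hLA, hLB, hcr]
      show Real.sin q.2 * -((fderiv ℝ L q (0, 1)) 1) = _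
      ring)
    (fun q => by
      rw [hLB, hLA, hcr]
      rfl) q q' hq0 hq1 hq0' hq1'
  have h5 : G q = G q' := by
    rw [← hLG, ← hLG]
    have : L q = L q' := by
      show (!₂[A q, B q] : E2) = !₂[A q', B q']
      rw [h.1, h.2]
    rw [this]
  exact h5

end Pool.Agent.Helper449.RC
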