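import Mathlib
import Pool.Agent.Helper449.RC.Curves
import Pool.Agent.Helper449.RC.TorusMaps

/-!
# The product complex structure
-/

open scoped Manifold ContDiff Topology
open Metric Set Bundle
open Pool.Agent.Helper206.Cover
open Pool.Agent.Helper206.Rat (SymplecticForm AlmostComplex IsCompatible IsHolomorphic
  RationalCurve contDiff_Pc)

noncomputable section

namespace Pool.Agent.Helper449.RC

attribute [local instance] factR3

/-- the product complex structure, as an ambient map -/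
def JP (t z : R3) (v : W8) : W8 := (cross t v.1, (cross z v.2.1, rot v.2.2))

theorem JP_add (t z : R3) (v w : W8) : JP t z (v + w) = JP t z v + JP t z w :=
  Prod.ext (crx_add _ _ _) (Prod.ext (crx_add _ _ _) (rot_add _ _))

theorem JP_smul (t z : R3) (c : ℝ) (v : W8) : JP t z (c • v) = c • JP t z v :=
  Prod.ext (crx_smul _ _ _) (Prod.ext (crx_smul _ _ _) (rot_smul _ _))

/-- the product complex structure as a continuous linear map of `W8` -/
def JPL (t z : R3) : W8 →L[ℝ] W8 :=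
  LinearMap.toContinuousLinearMap
    { toFun := JP t z
      map_add' := JP_add t z
      map_smul' := JP_smul t z }

theorem JP_orth (t z : R3) (v : W8) :
    inner ℝ t (JP t z v).1 = (0 : ℝ) ∧ inner ℝ z (JP t z v).2.1 = (0 : ℝ) :=
  ⟨inner_z_crx _ _, inner_z_crx _ _⟩

theorem JP_JP (t z : R3) (ht : inner ℝ t t = (1 : ℝ)) (hz : inner ℝ z z = (1 : ℝ)) (v : W8)
    (h1 : inner ℝ t v.1 = (0 : ℝ)) (h2 : inner ℝ z v.2.1 = (0 : ℝ)) :
    JP t z (JP t z v) = -v := by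
  refine Prod.ext ?_ (Prod.ext ?_ ?_)
  · show cross t (cross t v.1) = -v.1
    rw [crx_crx t ht, h1, zero_smul, zero_sub]
  · show cross z (cross z v.2.1) = -v.2.1
    rw [crx_crx z hz, h2, zero_smul, zero_sub]
  · exact rot_rot _

theorem formW8_JP (t z : R3) (ht : inner ℝ t t = (1 : ℝ)) (hz : inner ℝ z z = (1 : ℝ)) (v w : W8)
    (hv1 : inner ℝ t v.1 = (0 : ℝ)) (hv : inner ℝ z v.2.1 = (0 : ℝ)) :
    formW8 t z (JP t z v) (JP t z w) = formW8 t z v w := by
  rw [formW8_apply, formW8_apply]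
  have e1 : cross t (cross t v.1) = -v.1 := by
    rw [crx_crx t ht, hv1, zero_smul, zero_sub]
  have e2 : cross z (cross z v.2.1) = -v.2.1 := by
    rw [crx_crx z hz, hv, zero_smul, zero_sub]
  show inner ℝ (cross t (cross t v.1)) (cross t w.1) + (inner ℝ (cross z (cross z v.2.1))
      (cross z w.2.1) + ((rot v.2.2) 0 * (rot w.2.2) 1 - (rot v.2.2) 1 * (rot w.2.2) 0)) = _
  rw [e1, e2]
  simp only [formW_pos_dot, formW_pos_c0, formW_pos_c1, formW_pos_c2, PiLp.neg_apply, rot]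
  simp
  ring

theorem formW8_pos_JP (t z : R3) (ht : inner ℝ t t = (1 : ℝ)) (hz : inner ℝ z z = (1 : ℝ))
    (v : W8) (hv1 : inner ℝ t v.1 = (0 : ℝ)) (hv : inner ℝ z v.2.1 = (0 : ℝ)) (hne : v ≠ 0) :
    0 < formW8 t z v (JP t z v) := by
  have h0 : formW8 t z v (JP t z v) = inner ℝ (cross t v.1) (cross t v.1)
      + (inner ℝ (cross z v.2.1) (cross z v.2.1)
        + (v.2.2 0 * v.2.2 0 + v.2.2 1 * v.2.2 1)) := by
    rw [formW8_apply]
    show inner ℝ (cross t v.1) (cross t v.1) + (inner ℝ (cross z v.2.1)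
      (cross z v.2.1) + (v.2.2 0 * (rot v.2.2) 1 - v.2.2 1 * (rot v.2.2) 0)) = _
    simp [rot]
  rw [h0]
  have a1 : (0 : ℝ) ≤ inner ℝ (cross t v.1) (cross t v.1) := real_inner_self_nonneg
  have a2 : (0 : ℝ) ≤ inner ℝ (cross z v.2.1) (cross z v.2.1) := real_inner_self_nonneg
  have a3 : 0 ≤ v.2.2 0 * v.2.2 0 := mul_self_nonneg _
  have a4 : 0 ≤ v.2.2 1 * v.2.2 1 := mul_self_nonneg _
  by_contra hcon
  have b1 : inner ℝ (cross t v.1) (cross t v.1) = (0 : ℝ) := by linarith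
  have b2 : inner ℝ (cross z v.2.1) (cross z v.2.1) = (0 : ℝ) := by linarith
  have b3 : v.2.2 0 * v.2.2 0 = 0 := by linarith
  have b4 : v.2.2 1 * v.2.2 1 = 0 := by linarith
  have c1 : v.1 = 0 := eq_zero_of_cross_self t v.1 ht hv1 b1
  have c2 : v.2.1 = 0 := eq_zero_of_cross_self z _ hz hv b2
  have c3 : v.2.2 = 0 := by
    ext i; fin_cases i
    · simpa using b3
    · simpa using b4
  exact hne (Prod.ext c1 (Prod.ext c2 c3))

/-- the product complex structure -/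
def J0 : EndoField I6 X6 := fun x =>
  ((proj6 x).comp ((JPL x.1 x.2.1).comp (inc6 x)) : E6 →L[ℝ] E6)

/-- coordinate expression -/
def coordEndo0 (Z Z' : E2 → R3) (P P' : E2 → R3 →L[ℝ] E2) (y : E6) : E6 →L[ℝ] E6 :=
  ((P y.1).prodMap ((P' y.2.1).prodMap (ContinuousLinearMap.id ℝ E2))).comp
    ((JPL (Z y.1) (Z' y.2.1)).comp (dZ Z Z' y))

theorem endoInChart_J0 (x₀ : X6) (y : E6) (hy : y ∈ (extChartAt I6 x₀).target) :
    endoInChart J0 x₀ y = coordEndo0 (Zc x₀.1) (Zc x₀.2.1) (Pc x₀.1) (Pc x₀.2.1) y := by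
  refine ContinuousLinearMap.ext fun v => ?_
  have hx : (extChartAt I6 x₀).symm y ∈ (extChartAt I6 x₀).source :=
    (extChartAt I6 x₀).map_target hy
  have h1 := inc6_mfderiv_symm x₀ y v
  have h2 := mvfderiv_extChartAt_X6 x₀ ((extChartAt I6 x₀).symm y) hx
    (J0 ((extChartAt I6 x₀).symm y) (mfderiv 𝓘(ℝ, E6) I6 (extChartAt I6 x₀).symm y v : E6))
  show mvfderiv I6 (extChartAt I6 x₀) ((extChartAt I6 x₀).symm y)
    (J0 ((extChartAt I6 x₀).symm y) (mfderiv 𝓘(ℝ, E6) I6 (extChartAt I6 x₀).symm y v : E6)) = _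
  refine h2.trans ?_
  have h4 : (J0 ((extChartAt I6 x₀).symm y)
      (mfderiv 𝓘(ℝ, E6) I6 (extChartAt I6 x₀).symm y v : E6) : E6)
      = (proj6 ((extChartAt I6 x₀).symm y)) (JPL (((extChartAt I6 x₀).symm y).1 : R3)
        (((extChartAt I6 x₀).symm y).2.1 : R3) (inc6 ((extChartAt I6 x₀).symm y)
          (mfderiv 𝓘(ℝ, E6) I6 (extChartAt I6 x₀).symm y v : E6))) := rfl
  rw [h4, h1]
  have key : ∀ (x : X6), x = ((extChartAt (𝓡 2) x₀.1).symm y.1,
        ((extChartAt (𝓡 2) x₀.2.1).symm y.2.1, toT2 y.2.2)) →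
      ((mvfderiv (𝓡 2) (extChartAt (𝓡 2) x₀.1) x.1
        (proj6 x (JPL x.1 x.2.1 (dZ (Zc x₀.1) (Zc x₀.2.1) y v))).1,
        (mvfderiv (𝓡 2) (extChartAt (𝓡 2) x₀.2.1) x.2.1
        (proj6 x (JPL x.1 x.2.1 (dZ (Zc x₀.1) (Zc x₀.2.1) y v))).2.1,
        (proj6 x (JPL x.1 x.2.1 (dZ (Zc x₀.1) (Zc x₀.2.1) y v))).2.2)) : E6) =
        coordEndo0 (Zc x₀.1) (Zc x₀.2.1) (Pc x₀.1) (Pc x₀.2.1) y v := by
    rintro x rfl
    rfl
  exact key _ (extChartAt_X6_symm x₀ y)

theorem contDiff_coordEndo0 (Z Z' : E2 → R3) (hZ : ContDiff ℝ ∞ Z) (hZ' : ContDiff ℝ ∞ Z')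
    (P P' : E2 → R3 →L[ℝ] E2) (hP : ContDiff ℝ ∞ P) (hP' : ContDiff ℝ ∞ P') :
    ContDiff ℝ ∞ (coordEndo0 Z Z' P P') := by
  rw [contDiff_clm_apply_iff]
  intro v
  have hz : ContDiff ℝ ∞ (fun y : E6 => Z y.1) := hZ.comp contDiff_fst
  have hz' : ContDiff ℝ ∞ (fun y : E6 => Z' y.2.1) := hZ'.comp contDiff_y2
  have hd : ContDiff ℝ ∞ (fderiv ℝ Z) := hZ.fderiv_right (m := ∞) (by norm_cast)
  have hd' : ContDiff ℝ ∞ (fderiv ℝ Z') := hZ'.fderiv_right (m := ∞) (by norm_cast)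
  have hd1 : ContDiff ℝ ∞ (fun y : E6 => fderiv ℝ Z y.1 v.1) :=
    (hd.comp contDiff_fst).clm_apply contDiff_const
  have hd2 : ContDiff ℝ ∞ (fun y : E6 => fderiv ℝ Z' y.2.1 v.2.1) :=
    (hd'.comp contDiff_y2).clm_apply contDiff_const
  have h1 : ContDiff ℝ ∞ (fun y : E6 => P y.1 (cross (Z y.1) (fderiv ℝ Z y.1 v.1))) :=
    (hP.comp contDiff_fst).clm_apply (contDiff_cross hz hd1)
  have h2 : ContDiff ℝ ∞ (fun y : E6 => P' y.2.1 (cross (Z' y.2.1) (fderiv ℝ Z' y.2.1 v.2.1))) :=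
    (hP'.comp contDiff_y2).clm_apply (contDiff_cross hz' hd2)
  have h3 : ContDiff ℝ ∞ (fun _ : E6 => rot v.2.2) := contDiff_const
  exact h1.prodMk (h2.prodMk h3)

theorem inc6_J0 (x : X6) (v : E6) : inc6 x (J0 x v : E6) = JP x.1 x.2.1 (inc6 x v) := by
  obtain ⟨h1, h2⟩ := JP_orth (x.1 : R3) (x.2.1 : R3) (inc6 x v)
  have h3 : inc6 x (J0 x v : E6) =
      (dInc x.1 (tanProj x.1 (JP x.1 x.2.1 (inc6 x v)).1),
        (dInc x.2.1 (tanProj x.2.1 (JP x.1 x.2.1 (inc6 x v)).2.1),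
          (JP x.1 x.2.1 (inc6 x v)).2.2)) := rfl
  rw [h3, dInc_tanProj, dInc_tanProj, h1, h2, zero_smul, zero_smul, sub_zero, sub_zero]

/-- the product complex structure -/
def K0 : AlmostComplex I6 X6 where
  J := J0
  smooth := by
    intro x₀
    have h3 : ContDiffOn ℝ ∞ (coordEndo0 (Zc x₀.1) (Zc x₀.2.1) (Pc x₀.1) (Pc x₀.2.1))
        (extChartAt I6 x₀).target :=
      (contDiff_coordEndo0 _ _ (contDiff_Zc _) (contDiff_Zc _) _ _
        (contDiff_Pc _) (contDiff_Pc _)).contDiffOn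
    refine ContDiffOn.congr h3 ?_
    intro y hy
    exact endoInChart_J0 x₀ y hy
  sq := by
    intro x v
    have key : ∀ v : E6, (J0 x (J0 x v : E6) : E6) = -v := by
      intro v
      apply inc6_injective x
      rw [inc6_J0, inc6_J0, JP_JP _ _ (inner_self_P1 _) (inner_self_P1 _) _ (inc6_orth x v).1
        (inc6_orth x v).2, map_neg]
    exact key v

theorem isCompatible_K0 : IsCompatible Om6 K0 := by
  constructor
  · intro x v w
    have h := formW8_JP x.1 x.2.1 (inner_self_P1 x.1) (inner_self_P1 x.2.1) (inc6 x v) (inc6 x w)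
      (inc6_orth x v).1 (inc6_orth x v).2
    rw [← inc6_J0, ← inc6_J0] at h
    exact h
  · intro x v hv
    have hne : inc6 x v ≠ 0 := by
      intro h0
      apply hv
      apply inc6_injective x
      rw [h0]
      exact (map_zero (inc6 x)).symm
    have h := formW8_pos_JP x.1 x.2.1 (inner_self_P1 x.1) (inner_self_P1 x.2.1) (inc6 x v)
      (inc6_orth x v).1 (inc6_orth x v).2 hne
    rw [← inc6_J0] at h
    exact h

theorem mfderiv_torus (u : P1 → X6) (hu : ContMDiff (𝓡 2) I6 ∞ u) (z : P1)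
    (w : TangentSpace (𝓡 2) z) :
    (mfderiv (𝓡 2) 𝓘(ℝ, E2) (fun z => (u z).2.2) z w : E2)
      = ((mfderiv (𝓡 2) I6 u z w : E6).2.2 : E2) := by
  have h1 : MDifferentiableAt (𝓡 2) I6 u z := (hu z).mdifferentiableAt (by simp)
  have f2' : HasMFDerivAt I6 ((𝓡 2).prod 𝓘(ℝ, E2)) (fun y : X6 => y.2) (u z)
      (ContinuousLinearMap.snd ℝ E2 (E2 × E2)) := hasMFDerivAt_snd (u z)
  have f22 : HasMFDerivAt ((𝓡 2).prod 𝓘(ℝ, E2)) 𝓘(ℝ, E2) (fun y : P1 × T2 => y.2) (u z).2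
      (ContinuousLinearMap.snd ℝ E2 E2) := hasMFDerivAt_snd (u z).2
  have f3 := (f22.comp (u z) f2').comp z h1.hasMFDerivAt
  have h := f3.mfderiv
  exact congrArg (fun L : E2 →L[ℝ] E2 => L w) h

/-- a sphere which is holomorphic for the product structure has constant torus component -/
theorem torus_const (u : P1 → X6) (hu : IsHolomorphic (I' := 𝓡 2) jP1 K0 u) (a b : P1) :
    (u a).2.2 = (u b).2.2 := by
  refine const_T2 (fun z => (u z).2.2) ?_ ?_ a b
  · exact contMDiff_snd.comp (contMDiff_snd.comp hu.1)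
  · intro z w
    rw [mfderiv_torus u hu.1, mfderiv_torus u hu.1, hu.2 z w]
    have h := inc6_J0 (u z) (mfderiv (𝓡 2) I6 u z w : E6)
    exact congrArg (fun p : W8 => p.2.2) h

/-- a rational curve for the product structure lies over a point of the torus -/
theorem image_torus (C : RationalCurve (I' := 𝓡 2) jP1 K0) (x y : X6) (hx : x ∈ C.image)
    (hy : y ∈ C.image) : x.2.2 = y.2.2 := by
  unfold RationalCurve.image at hx hy
  rw [mem_iUnion] at hx hy
  obtain ⟨a, z, rfl⟩ := hx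
  obtain ⟨b, w, rfl⟩ := hy
  have hstep : ∀ c d, C.graph.Adj c d → ∀ z w, (C.u c z).2.2 = (C.u d w).2.2 := by
    intro c d hcd z w
    rw [torus_const (C.u c) (C.holomorphic c) z (C.node c d), C.node_eq c d hcd]
    exact torus_const (C.u d) (C.holomorphic d) _ _
  have hr : C.graph.Reachable a b := C.isTree.connected a b
  obtain ⟨p⟩ := hr
  have hwalk : ∀ (c d : Fin C.n) (p : C.graph.Walk c d), ∀ z w, (C.u c z).2.2 = (C.u d w).2.2 := by
    intro c d p
    induction p with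
    | nil => exact fun z w => torus_const (C.u _) (C.holomorphic _) z w
    | cons hadj _ ih => exact fun z w => (hstep _ _ hadj z z).trans (ih z w)
  exact hwalk a b p z w

theorem exists_not_joined (x : X6) : ∃ y : X6, ¬ ∃ C : RationalCurve (I' := 𝓡 2) jP1 K0,
    x ∈ C.image ∧ y ∈ C.image := by
  obtain ⟨p, p', w⟩ := x
  obtain ⟨c, rfl⟩ : ∃ c, toT2 c = w := ⟨liftT2 w, toT2_liftT2 w⟩
  refine ⟨(p, (p', toT2 (c + EuclideanSpace.single 0 (1 / 2 : ℝ)))), ?_⟩
  rintro ⟨C, hx, hy⟩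
  have h := image_torus C _ _ hx hy
  have h1 : toT2 c = toT2 (c + EuclideanSpace.single 0 (1 / 2 : ℝ)) := h
  have h2 := congrFun h1 0
  have h3 : ((c 0 : ℝ) : AddCircle (1 : ℝ)) = ((c 0 + 1 / 2 : ℝ) : AddCircle (1 : ℝ)) := by
    have e : (c + EuclideanSpace.single (0 : Fin 2) (1 / 2 : ℝ) : E2) 0 = c 0 + 1 / 2 := by simp
    have h2' : ((c 0 : ℝ) : AddCircle (1 : ℝ))
        = (((c + EuclideanSpace.single (0 : Fin 2) (1 / 2 : ℝ) : E2) 0 : ℝ) : AddCircle (1 : ℝ)) :=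
      h2
    rw [e] at h2'
    exact h2'
  rw [AddCircle.coe_add, left_eq_add, AddCircle.coe_eq_zero_iff] at h3
  obtain ⟨n, hn⟩ := h3
  rw [zsmul_eq_mul, mul_one] at hn
  have h5 : (0 : ℝ) < n := by rw [hn]; norm_num
  have h6 : (n : ℝ) < 1 := by rw [hn]; norm_num
  have h7 : 0 < n := by exact_mod_cast h5
  have h8 : n < 1 := by exact_mod_cast h6
  omega

end Pool.Agent.Helper449.RC
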